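import Mathlib

/-!
Properties holding for general points.
-/

namespace Pool.Agent.Helper65.HFL

open MvPolynomial

/-- The property holds for all tuples of vectors outside the zero set of a nonzero polynomial. -/
def Gen {n r : ℕ} (A : (Fin r → Fin (n + 1) → ℂ) → Prop) : Prop :=
  ∃ G : MvPolynomial (Fin r × Fin (n + 1)) ℂ, G ≠ 0 ∧
    ∀ P : Fin r → Fin (n + 1) → ℂ, eval (fun x => P x.1 x.2) G ≠ 0 → A P

theorem Gen.mono {n r : ℕ} {A B : (Fin r → Fin (n + 1) → ℂ) → Prop} (h : Gen A)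
    (hAB : ∀ P, A P → B P) : Gen B := by
  obtain ⟨G, h1, h2⟩ := h
  exact ⟨G, h1, fun P hP => hAB P (h2 P hP)⟩

theorem Gen.and {n r : ℕ} {A B : (Fin r → Fin (n + 1) → ℂ) → Prop} (hA : Gen A) (hB : Gen B) :
    Gen fun P => A P ∧ B P := by
  obtain ⟨G, h1, h2⟩ := hA
  obtain ⟨G', h3, h4⟩ := hB
  refine ⟨G * G', mul_ne_zero h1 h3, fun P hP => ?_⟩
  rw [map_mul] at hP
  exact ⟨h2 P (left_ne_zero_of_mul hP), h4 P (right_ne_zero_of_mul hP)⟩

theorem Gen.triv {n r : ℕ} {A : (Fin r → Fin (n + 1) → ℂ) → Prop} (hA : ∀ P, A P) : Gen A :=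
  ⟨1, one_ne_zero, fun P _ => hA P⟩

theorem Gen.imp {n r : ℕ} {p : Prop} {A : (Fin r → Fin (n + 1) → ℂ) → Prop} (hA : p → Gen A) :
    Gen fun P => p → A P := by
  by_cases h : p
  · exact (hA h).mono fun P hP _ => hP
  · exact Gen.triv fun P hp => absurd hp h

theorem Gen.ball {n r : ℕ} (s : Finset ℕ) {A : ℕ → (Fin r → Fin (n + 1) → ℂ) → Prop}
    (hA : ∀ d ∈ s, Gen (A d)) : Gen fun P => ∀ d ∈ s, A d P := by
  classical
  induction s using Finset.induction_on with
  | empty => exact Gen.triv fun P d hd => absurd hd (Finset.notMem_empty d)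
  | insert a s _ ih =>
    have h1 := (hA a (Finset.mem_insert_self a s)).and
      (ih fun d hd => hA d (Finset.mem_insert_of_mem hd))
    refine h1.mono fun P hP d hd => ?_
    rcases Finset.mem_insert.1 hd with rfl | hd
    · exact hP.1
    · exact hP.2 d hd

end Pool.Agent.Helper65.HFL
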