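import Mathlib
import Pool.Agent.Helper65.HFL.FUniform

namespace Pool.Agent.Helper65.HFL

open Pool.Agent.Helper45

open MvPolynomial

set_option linter.unusedSectionVars false

section Main

variable {k : Type*} [Field k] [CharZero k]

theorem specPt_ne_zero {ι σ : Type*} [DecidableEq ι] {N0 : ℕ} (hN0 : 1 ≤ N0)
    {pos : ι × Fin N0 → σ} (hpos : Function.Injective pos) {s : Finset ι} (hs : s.Nonempty)
    (t : k) : specPt pos s t ≠ 0 := by
  obtain ⟨i, hi⟩ := hs
  intro h
  have h1 := congrFun h (pos (i, ⟨0, hN0⟩))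
  unfold specPt at h1
  rw [hpos.extend_apply, if_pos hi] at h1
  simp at h1

/-- Existence of a configuration having the expected dimensions. -/
theorem exists_special (n m q r : ℕ) (hm : 1 ≤ m) (hq : 1 ≤ q)
    (hr : r ≤ ((n + 1) / (m + q - 2).choose (q - 1)).choose q) :
    ∃ P0 : Fin r × Fin (n + 1) → k, ∀ j, q ≤ j → ∀ t ≤ r, ∀ E ≤ m - 1,
      (Module.finrank k (degPart (powSeq P0 j) t E) : ℤ) = uval n j t E := by
  classical
  set N0 := (m + q - 2).choose (q - 1) with hN0
  have hN0pos : 1 ≤ N0 := Nat.choose_pos (by omega)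
  set K := (n + 1) / N0 with hK
  have hKN : K * N0 ≤ n + 1 := Nat.div_mul_le_self _ _
  let pos : Fin K × Fin N0 → Fin (n + 1) := fun x => Fin.castLE hKN (finProdFinEquiv x)
  have hpos : Function.Injective pos := by
    intro x y hxy
    exact finProdFinEquiv.injective (Fin.castLE_injective hKN hxy)
  have hS : r ≤ (Finset.powersetCard q (Finset.univ : Finset (Fin K))).card := by
    rw [Finset.card_powersetCard, Finset.card_univ, Fintype.card_fin]
    exact hr
  let η : ℕ → Finset (Fin K) := fun a => if h : a < r then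
    (((Finset.powersetCard q (Finset.univ : Finset (Fin K))).equivFin.symm
      ⟨a, lt_of_lt_of_le h hS⟩ : _) : Finset (Fin K)) else ∅
  have hηa : ∀ a (h : a < r), η a = (((Finset.powersetCard q
      (Finset.univ : Finset (Fin K))).equivFin.symm
      ⟨a, lt_of_lt_of_le h hS⟩ : _) : Finset (Fin K)) := by
    intro a h
    simp only [η, h, dif_pos]
  have hηc : ∀ a < r, (η a).card = q := by
    intro a h
    rw [hηa a h]
    exact (Finset.mem_powersetCard.1 (Subtype.mem _)).2
  have hηi : ∀ a < r, ∀ b < r, η a = η b → a = b := by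
    intro a ha b hb hab
    rw [hηa a ha, hηa b hb] at hab
    have h1 := (Finset.powersetCard q (Finset.univ : Finset (Fin K))).equivFin.symm.injective
      (Subtype.ext hab)
    exact congrArg Fin.val h1
  let P0 : Fin r × Fin (n + 1) → k := fun x => specPt pos (η x.1) ((x.1 : ℕ) : k) x.2
  have hP0 : ∀ a (h : a < r), ptSeq P0 a = specPt pos (η a) ((a : ℕ) : k) := by
    intro a h
    rw [ptSeq_of_lt P0 h]
  refine ⟨P0, fun j hj => ?_⟩
  refine special_value (by rw [Fintype.card_fin]) (by omega) (powSeq_isHomogeneous P0 j) r (m - 1)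
    ?_ ?_
  · intro a ha
    unfold powSeq
    refine pow_ne_zero _ (linForm_ne_zero ?_)
    rw [hP0 a ha]
    refine specPt_ne_zero hN0pos hpos ?_ _
    rw [← Finset.card_pos, hηc a ha]
    exact hq
  · refine colon_special hpos (powSeq P0 j) η q j (m - 1) r hq hj ?_ hηc hηi ?_
      (powSeq_isHomogeneous P0 j)
    · have e : q + (m - 1) - 1 = m + q - 2 := by omega
      rw [e]
    · intro a ha
      unfold powSeq ptPow
      rw [hP0 a ha, linForm_specPt hpos]

theorem uval_eq_sum (n m r d j : ℕ) (hj : 1 ≤ j) (hd : m - 1 + j = d) :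
    uval n j r (m - 1) = ∑ i ∈ Finset.Icc 1 (d / j),
      (-1) ^ (i + 1) * (r.choose i : ℤ) * ((n + d - i * j).choose n : ℤ) := by
  have h1 : d / j = (m - 1) / j + 1 := by
    rw [← hd, Nat.add_div_right _ hj]
  rw [h1]
  unfold uval
  refine Finset.sum_nbij (fun i => i + 1) ?_ ?_ ?_ ?_
  · intro i hi
    rw [Finset.mem_range] at hi
    rw [Finset.mem_Icc]
    omega
  · intro a _ b _ h
    exact Nat.succ_injective h
  · intro i hi
    rw [Finset.mem_coe, Finset.mem_Icc] at hi
    refine ⟨i - 1, ?_, ?_⟩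
    · rw [Finset.mem_coe, Finset.mem_range]
      omega
    · simp only
      omega
  · intro i _
    have e1 : (-1 : ℤ) ^ (i + 1 + 1) = (-1) ^ i := by
      rw [pow_succ, pow_succ]
      ring
    have e2 : n + d - (i + 1) * j = n + (m - 1) - i * j := by
      rw [← hd, add_mul, one_mul]
      omega
    rw [e1, e2]

/-- The Hilbert function of a general fat point scheme in terms of dimensions. -/
theorem exists_generic (n m q r : ℕ) (hm : 1 ≤ m) (hq : 1 ≤ q)
    (hr : r ≤ ((n + 1) / (m + q - 2).choose (q - 1)).choose q) :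
    ∃ G : MvPolynomial (Fin r × Fin (n + 1)) k, G ≠ 0 ∧
      ∀ P : Fin r → Fin (n + 1) → k, eval (fun x => P x.1 x.2) G ≠ 0 →
      (∀ i, P i ≠ 0) ∧ ∀ j, q ≤ j →
      (Module.finrank k (degPart (powSeq (fun x => P x.1 x.2) j) r (m - 1)) : ℤ) =
        uval n j r (m - 1) := by
  obtain ⟨P0, hP0⟩ := exists_special (k := k) n m q r hm hq hr
  have hcard : Fintype.card (Fin (n + 1)) = n + 1 := Fintype.card_fin _
  obtain ⟨G, hG1, hG2⟩ := exists_prod P0 (Finset.Icc q (max m q))
    (fun j P => (∀ a : Fin r, (fun s => P (a, s)) ≠ 0) →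
      ∀ E ≤ m - 1, (Module.finrank k (degPart (powSeq P j) r E) : ℤ) = uval n j r E) (by
      intro j hj
      rw [Finset.mem_Icc] at hj
      exact generic_degPart hcard P0 (by omega) (m - 1) (fun t ht E hE => hP0 j hj.1 t ht E hE))
  refine ⟨G * ∏ a : Fin r, X (a, 0), ?_, ?_⟩
  · refine mul_ne_zero ?_ (Finset.prod_ne_zero_iff.2 fun a _ => X_ne_zero _)
    rintro rfl
    exact hG1 (map_zero _)
  · intro P hP
    rw [map_mul, map_prod] at hP
    have hG := left_ne_zero_of_mul hP
    have hX := right_ne_zero_of_mul hP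
    rw [Finset.prod_ne_zero_iff] at hX
    have hX' : ∀ a : Fin r, P a 0 ≠ 0 := by
      intro a
      have := hX a (Finset.mem_univ a)
      rwa [eval_X] at this
    have hne : ∀ a : Fin r, P a ≠ 0 := by
      intro a h
      exact hX' a (by rw [h]; rfl)
    refine ⟨hne, ?_⟩
    have hmain := hG2 (fun x => P x.1 x.2) hG
    intro j hj
    rcases le_total j (max m q) with h | h
    · exact hmain j (Finset.mem_Icc.2 ⟨hj, h⟩) (fun a => hne a) (m - 1) le_rfl
    · refine finrank_of_ge hcard (fun x : Fin r × Fin (n + 1) => P x.1 x.2) 0 (fun a => hX' a)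
        (max m q) (m - 1) (by omega) ?_ j h
      exact hmain (max m q) (Finset.mem_Icc.2 ⟨le_max_right _ _, le_rfl⟩) (fun a => hne a)
        (m - 1) le_rfl

end Main

end Pool.Agent.Helper65.HFL
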