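import Mathlib
import Pool.Agent.Helper65.HF.Res
import Pool.Agent.Helper65.HFL.FMain
import Pool.Agent.Helper45.GrN
import Pool.Agent.Helper22.HF.M_HIL

/-!
Fat points in large dimension: the degree equal to the multiplicity.
-/

namespace Pool.Agent.Helper65.HFL

open MvPolynomial Pool.Agent.Helper45 Pool.Agent.Helper65.HF

/-- The alternating sum. -/
def SS (r n m : ℕ) : ℤ :=
  ∑ i ∈ Finset.range (m + 1), (-1) ^ i * (r.choose i : ℤ) * ((n + m - i).choose n : ℤ)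

theorem SS_succ (r n m : ℕ) : SS (r + 1) n (m + 1) = SS r n (m + 1) - SS r n m := by
  unfold SS
  rw [Finset.sum_range_succ' _ (m + 1), Finset.sum_range_succ' _ (m + 1)]
  have h : ∀ i ∈ Finset.range (m + 1), (-1 : ℤ) ^ (i + 1) * ((r + 1).choose (i + 1) : ℤ) *
      ((n + (m + 1) - (i + 1)).choose n : ℤ) = (-1 : ℤ) ^ (i + 1) * (r.choose (i + 1) : ℤ) *
      ((n + (m + 1) - (i + 1)).choose n : ℤ) -
      (-1 : ℤ) ^ i * (r.choose i : ℤ) * ((n + m - i).choose n : ℤ) := by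
    intro i _
    have e : n + (m + 1) - (i + 1) = n + m - i := by omega
    rw [e, Nat.choose_succ_succ]
    push_cast
    ring
  rw [Finset.sum_congr rfl h, Finset.sum_sub_distrib]
  simp only [Nat.choose_zero_right]
  ring

theorem SS_zero (r n : ℕ) : SS r n 0 = 1 := by
  unfold SS
  simp

theorem SS_eq (r : ℕ) : ∀ n m : ℕ, r ≤ n → SS r n m = ((n - r + m).choose m : ℤ) := by
  induction r with
  | zero =>
    intro n m _
    unfold SS
    rw [Finset.sum_range_succ']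
    simp only [Nat.choose_zero_succ, Nat.cast_zero, mul_zero, zero_mul, Finset.sum_const_zero,
      pow_zero, Nat.choose_zero_right, Nat.cast_one, one_mul, zero_add, Nat.sub_zero]
    rw [Nat.choose_symm_add]
  | succ r ih =>
    intro n m hr
    cases m with
    | zero => rw [SS_zero]; simp
    | succ m =>
      rw [SS_succ, ih n (m + 1) (by omega), ih n m (by omega)]
      have e1 : n - r + (m + 1) = n - r + m + 1 := by omega
      have e2 : n - (r + 1) + (m + 1) = n - r + m := by omega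
      rw [e1, e2, Nat.choose_succ_succ]
      push_cast
      ring

theorem SS_full (n m : ℕ) (hm : 1 ≤ m) : SS (n + 1) n m = 0 := by
  obtain ⟨m, rfl⟩ : ∃ m', m = m' + 1 := ⟨m - 1, by omega⟩
  rw [SS_succ, SS_eq n n (m + 1) le_rfl, SS_eq n n m le_rfl]
  simp

theorem sum_eq (r n m : ℕ) : ∑ i ∈ Finset.Icc 1 m,
    (-1) ^ (i + 1) * (r.choose i : ℤ) * ((n + m - i * 1).choose n : ℤ) =
    ((n + m).choose n : ℤ) - SS r n m := by
  unfold SS
  rw [Finset.sum_range_succ']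
  have h : ∑ i ∈ Finset.Icc 1 m,
    (-1) ^ (i + 1) * (r.choose i : ℤ) * ((n + m - i * 1).choose n : ℤ) =
    ∑ i ∈ Finset.range m, (-1) ^ (i + 1 + 1) * (r.choose (i + 1) : ℤ) *
      ((n + m - (i + 1)).choose n : ℤ) := by
    rw [Finset.range_eq_Ico, Finset.sum_Ico_add' (fun i => (-1 : ℤ) ^ (i + 1) * (r.choose i : ℤ) *
      ((n + m - i).choose n : ℤ)) 0 m 1]
    refine Finset.sum_congr ?_ fun i _ => by rw [mul_one]
    ext i
    simp only [Finset.mem_Icc, Finset.mem_Ico]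
    omega
  rw [h]
  simp only [pow_zero, Nat.choose_zero_right, Nat.cast_one, one_mul, Nat.sub_zero]
  have h2 : ∑ i ∈ Finset.range m, (-1 : ℤ) ^ (i + 1 + 1) * (r.choose (i + 1) : ℤ) *
      ((n + m - (i + 1)).choose n : ℤ) = - ∑ i ∈ Finset.range m, (-1) ^ (i + 1) *
      (r.choose (i + 1) : ℤ) * ((n + m - (i + 1)).choose n : ℤ) := by
    rw [← Finset.sum_neg_distrib]
    refine Finset.sum_congr rfl fun i _ => ?_
    rw [pow_succ (-1 : ℤ) (i + 1)]
    ring
  rw [h2]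
  ring

/-- The value in degree `m` for at most `n + 1` points. -/
theorem lin_small (n m r : ℕ) (hm : 1 ≤ m) (hr : r ≤ n + 1) :
    ∃ G : MvPolynomial (Fin r × Fin (n + 1)) ℂ, G ≠ 0 ∧
      ∀ P : Fin r → Fin (n + 1) → ℂ, eval (fun x => P x.1 x.2) G ≠ 0 → (∀ i, P i ≠ 0) ∧
        (Module.finrank ℂ (homogeneousSubmodule (Fin (n + 1)) ℂ m ⊓
          (fatId P m).restrictScalars ℂ : Submodule ℂ (MvPolynomial (Fin (n + 1)) ℂ)) : ℤ) =
          SS r n m := by
  obtain ⟨G, hG0, hG⟩ := exists_generic (k := ℂ) n m 1 r hm le_rfl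
    (by simpa using hr)
  refine ⟨G, hG0, fun P hP => ?_⟩
  obtain ⟨hP0, hP1⟩ := hG P hP
  refine ⟨hP0, ?_⟩
  have hd' : m - 1 + 1 = m := by omega
  have h1 := hP1 1 le_rfl
  rw [uval_eq_sum n m r m 1 le_rfl hd', Nat.div_one, sum_eq] at h1
  have h2 := codim_eq (j := 1) hm P hP0
  rw [hd', dim_fin] at h2
  omega

theorem H_one_full (n m : ℕ) (hm : 1 ≤ m) : H ℂ 1 (n + 1) (n + 1) m = 0 := by
  obtain ⟨G, hG0, hG⟩ := lin_small n m (n + 1) hm le_rfl
  obtain ⟨x, hx⟩ : ∃ x : Fin (n + 1) × Fin (n + 1) → ℂ, eval x G ≠ 0 := by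
    by_contra h
    push Not at h
    exact hG0 (MvPolynomial.funext fun x => by rw [h x, map_zero])
  obtain ⟨h1, h2⟩ := hG (fun i s => x (i, s)) (by simpa using hx)
  have h3 := (Pool.Agent.Helper22.HF.hHIL n m 1 (n + 1) hm le_rfl).1 _ h1
  have hd' : m - 1 + 1 = m := by omega
  rw [hd', h2, SS_full n m hm] at h3
  omega

theorem H_one_big (n m r : ℕ) (hm : 1 ≤ m) (hr : n + 1 ≤ r) : H ℂ 1 (n + 1) r m = 0 := by
  have h1 := H_one_full n m hm
  unfold H at h1 ⊢
  rw [if_pos hm] at h1 ⊢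
  have h2 := Gr.gen_mono (k := ℂ) (σ := Fin (n + 1)) (j := 1) (E := m - 1) hr
  omega

/-- The value in degree `m`. -/
theorem lin_all (n m r : ℕ) (hm : 1 ≤ m) :
    ∃ G : MvPolynomial (Fin r × Fin (n + 1)) ℂ, G ≠ 0 ∧
      ∀ P : Fin r → Fin (n + 1) → ℂ, eval (fun x => P x.1 x.2) G ≠ 0 → (∀ i, P i ≠ 0) ∧
        hilb (fatIdeal P m) m = ((n + m).choose n : ℝ) -
          (if r ≤ n then ((n + m - r).choose m : ℝ) else 0) := by
  by_cases hr : r ≤ n
  · obtain ⟨G, hG0, hG⟩ := lin_small n m r hm (by omega)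
    refine ⟨G, hG0, fun P hP => ⟨(hG P hP).1, ?_⟩⟩
    have h1 := (hG P hP).2
    rw [SS_eq r n m hr] at h1
    have h2 : (Module.finrank ℂ (homogeneousSubmodule (Fin (n + 1)) ℂ m ⊓
          (fatIdeal P m).restrictScalars ℂ : Submodule ℂ (MvPolynomial (Fin (n + 1)) ℂ)) : ℝ) =
          ((n - r + m).choose m : ℝ) := by exact_mod_cast h1
    unfold hilb
    rw [h2, if_pos hr, dim_fin]
    congr 3
    omega
  · obtain ⟨G, hG0, hG⟩ := (Pool.Agent.Helper22.HF.hHIL n m 1 r hm le_rfl).2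
    refine ⟨G, hG0, fun P hP => ⟨(hG P hP).1, ?_⟩⟩
    have h1 := (hG P hP).2
    have hd' : m - 1 + 1 = m := by omega
    rw [hd', H_one_big n m r hm (by omega)] at h1
    have h2 : (Module.finrank ℂ (homogeneousSubmodule (Fin (n + 1)) ℂ m ⊓
          (fatIdeal P m).restrictScalars ℂ : Submodule ℂ (MvPolynomial (Fin (n + 1)) ℂ)) : ℝ) =
          0 := by exact_mod_cast h1
    unfold hilb
    rw [h2, if_neg hr, dim_fin]

end Pool.Agent.Helper65.HFL
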