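import Mathlib
import Pool.Agent.Helper65.HF.Res

/-!
Fat points in large dimension: degrees below the multiplicity.
-/

namespace Pool.Agent.Helper65.HFL

open MvPolynomial Pool.Agent.Helper45 Pool.Agent.Helper65.HF

theorem pointIdeal_le_vars {n : ℕ} (p : Fin (n + 1) → ℂ) :
    pointIdeal p ≤ idealOfVars (Fin (n + 1)) ℂ := by
  unfold pointIdeal
  rw [Ideal.span_le]
  rintro f ⟨⟨d, hf⟩, hp⟩
  have h1 : f ∈ idealOfVars (Fin (n + 1)) ℂ ^ 1 := by
    rw [mem_pow_idealOfVars_iff']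
    intro x hx
    by_cases hd : d = 0
    · subst hd
      have h2 := (totalDegree_zero_iff_isHomogeneous (p := f)).2 hf
      rw [totalDegree_eq_zero_iff_eq_C] at h2
      rw [h2, eval_C] at hp
      rw [h2, hp, C_0, coeff_zero]
    · refine hf.coeff_eq_zero ?_
      omega
  rwa [pow_one] at h1

theorem eq_zero_of_low {n r m d : ℕ} (hr : 1 ≤ r) (P : Fin r → Fin (n + 1) → ℂ) (hd : d < m)
    {f : MvPolynomial (Fin (n + 1)) ℂ} (hf : f.IsHomogeneous d) (hm : f ∈ fatIdeal P m) :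
    f = 0 := by
  unfold fatIdeal at hm
  rw [Ideal.mem_iInf] at hm
  have h1 := Ideal.pow_right_mono (pointIdeal_le_vars (P ⟨0, hr⟩)) m (hm ⟨0, hr⟩)
  rw [mem_pow_idealOfVars_iff'] at h1
  ext x
  rw [coeff_zero]
  by_cases hx : x.degree < m
  · exact h1 x hx
  · exact hf.coeff_eq_zero (by omega)

theorem hilb_low {n r m d : ℕ} (hr : 1 ≤ r) (P : Fin r → Fin (n + 1) → ℂ) (hd : d < m) :
    hilb (fatIdeal P m) d = ((n + d).choose n : ℝ) := by
  have h1 : (homogeneousSubmodule (Fin (n + 1)) ℂ d ⊓ (fatIdeal P m).restrictScalars ℂ :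
      Submodule ℂ (MvPolynomial (Fin (n + 1)) ℂ)) = ⊥ := by
    rw [eq_bot_iff]
    intro f hf
    rw [Submodule.mem_inf, mem_homogeneousSubmodule, Submodule.restrictScalars_mem] at hf
    rw [Submodule.mem_bot]
    exact eq_zero_of_low hr P hd hf.1 hf.2
  unfold hilb
  rw [h1, finrank_bot, dim_fin]
  simp

end Pool.Agent.Helper65.HFL
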