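import Mathlib
import Pool.Agent.Helper65.HF.Res
import Pool.Agent.Helper98.UAH.Final2

/-!
Fat points in large dimension: degrees at least `2 m - 1` (from the theorem on uniform
postulation).
-/

namespace Pool.Agent.Helper65.HFL

open MvPolynomial Pool.Agent.Helper65.HF

theorem uni (n m r : ℕ) (hm : 1 ≤ m) (hn : 27 ^ m < n) :
    ∃ G : MvPolynomial (Fin r × Fin (n + 1)) ℂ, G ≠ 0 ∧
      ∀ P : Fin r → Fin (n + 1) → ℂ, eval (fun x => P x.1 x.2) G ≠ 0 →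
        (∀ i, P i ≠ 0) ∧ ∀ d : ℕ, 2 * m - 1 ≤ d →
          (4 * m - 3 ≤ d ∨
            r * (n + m - 1).choose n + (n + m).choose (n + 1) ^ 2 ≤ (n + d).choose n ∨
            (n + d).choose n + 2 * (n + m).choose (n + 1) ^ 2 + 1 ≤ r * (n + m - 1).choose n) →
          hilb (fatIdeal P m) d =
            ((min ((n + d).choose n) (r * (n + m - 1).choose n) : ℕ) : ℝ) := by
  have hmn : m < n := lt_of_lt_of_le (Nat.lt_pow_self (by norm_num)) hn.le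
  have hn1 : 1 ≤ n := by omega
  obtain ⟨D0, hD0⟩ : ∃ D0 : ℝ, D0 = (2 * (n : ℝ) * m) ^ (3 + ∑ j ∈ Finset.range (n - 1),
    1 / ((j : ℝ) + 1)) := ⟨_, rfl⟩
  obtain ⟨W0, hW0⟩ : ∃ W0 : ℝ, W0 = (2 * (n : ℝ) * m) ^ (((n : ℝ) - 1) *
    (2 + ∑ j ∈ Finset.range (n - 1), 1 / ((j : ℝ) + 1))) := ⟨_, rfl⟩
  have hD : (2 * (n : ℝ) * m) ^ (3 + ∑ j ∈ Finset.range (n - 1), 1 / ((j : ℝ) + 1)) ≤
    (⌈D0⌉₊ : ℝ) := hD0 ▸ Nat.le_ceil _
  have hW : (2 * (n : ℝ) * m) ^ (((n : ℝ) - 1) *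
    (2 + ∑ j ∈ Finset.range (n - 1), 1 / ((j : ℝ) + 1))) ≤ (⌈W0⌉₊ : ℝ) :=
    hW0 ▸ Nat.le_ceil _
  obtain ⟨h1, h2⟩ := Pool.Agent.Helper46.EAH.ap_all ℂ n m hn1 hm ⌈W0⌉₊ hW
  obtain ⟨G, hG0, hG⟩ := Pool.Agent.Helper98.UAH.uniform2 (F := ℂ) n m r hn1 hm (fun _ => m)
    (fun _ => hm) (fun _ => le_rfl) ⌈D0⌉₊ ⌈W0⌉₊
    (Pool.Agent.Helper46.EAH.ex_all ℂ n m hn1 hm _ hD) h1 h2
  refine ⟨G, hG0, fun P hP => ?_⟩
  obtain ⟨hP0, hP1⟩ := hG P hP
  refine ⟨fun i h0 => hP0 i (by rw [h0]; rfl), fun d hd1 hd => ?_⟩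
  have hsum : ∑ i : Fin r, Pool.Agent.Helper46.EAH.N n ((fun _ => m) i) =
      r * (n + m - 1).choose n := by
    have : ∀ i : Fin r, Pool.Agent.Helper46.EAH.N n ((fun _ => m) i) = (n + m - 1).choose n := by
      intro i
      unfold Pool.Agent.Helper46.EAH.N
      rw [if_neg (by simp only; omega)]
    rw [Finset.sum_congr rfl fun i _ => this i, Finset.sum_const, Finset.card_univ,
      Fintype.card_fin, smul_eq_mul]
  have hT : Pool.Agent.Helper46.EAH.N n (d + 1) = (n + d).choose n :=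
    Pool.Agent.Helper46.EAH.N_succ n d
  have hA : Pool.Agent.Helper46.EAH.N (n + 1) m = (n + m).choose (n + 1) := by
    unfold Pool.Agent.Helper46.EAH.N
    rw [if_neg (by omega)]
    congr 1
    omega
  have key := hP1 d ?_
  · rw [hsum, hT] at key
    have e : hilb (fatIdeal P m) d
        = ((Pool.Agent.Helper46.EAH.hilbert (Pool.Agent.Helper46.EAH.fatI P
          (fun _ => m)) d : ℤ) : ℝ) := by
      unfold hilb Pool.Agent.Helper46.EAH.hilbert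
      push_cast
      rfl
    rw [e, key]
    push_cast
    rfl
  · unfold Pool.Agent.Helper98.UAH.Good2 Pool.Agent.Helper98.UAH.Wf
    rw [hsum, hT, hA]
    rcases hd with hd | hd | hd
    · exact Or.inr (Or.inr (Or.inr (Or.inr (Or.inl ⟨hn, by omega⟩))))
    · refine Or.inr (Or.inr (Or.inr (Or.inr (Or.inr (Or.inr
        ⟨Or.inl ⟨by omega, by omega⟩, Or.inr ?_⟩)))))
      rw [← sq]
      exact hd
    · refine Or.inr (Or.inr (Or.inr (Or.inr (Or.inr (Or.inr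
        ⟨Or.inl ⟨by omega, by omega⟩, Or.inl ?_⟩)))))
      rw [← sq]
      omega

end Pool.Agent.Helper65.HFL
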