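import Mathlib
import Pool.Agent.Helper65.HF.All
import Pool.Agent.Helper65.HFL.Low
import Pool.Agent.Helper65.HFL.Lin
import Pool.Agent.Helper65.HFL.Uni
import Pool.Agent.Helper65.HFL.Gen

/-!
Fat points in large dimension: all degrees.
-/

namespace Pool.Agent.Helper65.HFL

open MvPolynomial Pool.Agent.Helper45 Pool.Agent.Helper65.HF

/-- The expected value. -/
noncomputable def ev (n r m d : ℕ) : ℝ :=
  ∑ i ∈ Finset.range (d / (d + 1 - m)), (-1 : ℝ) ^ i *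
    (r.choose (i + 1) : ℝ) * ((n + d - (i + 1) * (d + 1 - m)).choose n : ℝ)

/-- The width. -/
noncomputable def wdt (p n : ℕ) : ℝ := (n : ℝ) ^ p * Real.sqrt (n * Real.log n)

/-- The three statements in one degree between `m + 1` and `2 m - 2`. -/
def Mid (m d n r : ℕ) (cs C C' : ℝ) (P : Fin r → Fin (n + 1) → ℂ) : Prop :=
  ((r : ℝ) ≤ cs * (n : ℝ) ^ (d + 1 - m) - C * wdt (d - m) n →
    hilb (fatIdeal P m) d = ev n r m d ∧ ev n r m d < ((n + d).choose n : ℝ)) ∧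
  (cs * (n : ℝ) ^ (d + 1 - m) + C * wdt (d - m) n ≤ r →
    hilb (fatIdeal P m) d = ((n + d).choose n : ℝ)) ∧
  (cs * (n : ℝ) ^ (d + 1 - m) - C * wdt (d - m) n ≤ r →
    ((n + d).choose n : ℝ) - C' * wdt (d - 1) n ≤ hilb (fatIdeal P m) d)

theorem exists_nonzero_of {n : ℕ} {J : Ideal (MvPolynomial (Fin (n + 1)) ℂ)} {d : ℕ}
    {f : MvPolynomial (Fin (n + 1)) ℂ} (hf : f ∈ J) (hd : f.IsHomogeneous d) (h0 : f ≠ 0) :
    hilb J d < ((n + d).choose n : ℝ) := by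
  unfold hilb
  rw [dim_fin]
  have h1 : 0 < Module.finrank ℂ (homogeneousSubmodule (Fin (n + 1)) ℂ d ⊓
      J.restrictScalars ℂ : Submodule ℂ (MvPolynomial (Fin (n + 1)) ℂ)) := by
    have hfin : Module.Finite ℂ (homogeneousSubmodule (Fin (n + 1)) ℂ d ⊓
      J.restrictScalars ℂ : Submodule ℂ (MvPolynomial (Fin (n + 1)) ℂ)) :=
      Submodule.finiteDimensional_of_le (inf_le_left : _ ≤ homogeneousSubmodule (Fin (n + 1)) ℂ d)
    rw [Module.finrank_pos_iff]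
    refine ⟨⟨⟨f, ?_⟩, 0, ?_⟩⟩
    · rw [Submodule.mem_inf, mem_homogeneousSubmodule, Submodule.restrictScalars_mem]
      exact ⟨hd, hf⟩
    · intro h
      exact h0 (congrArg Subtype.val h)
  have h2 : (0 : ℝ) < (Module.finrank ℂ (homogeneousSubmodule (Fin (n + 1)) ℂ d ⊓
      J.restrictScalars ℂ : Submodule ℂ (MvPolynomial (Fin (n + 1)) ℂ)) : ℝ) := by
    exact_mod_cast h1
  linarith

theorem mid_one (m d : ℕ) (hm : 1 ≤ m) (hd : m + 1 ≤ d) : ∃ cs : ℝ, (0 < cs ∧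
    thr (d + 1 - m) d cs = 0 ∧ (∀ c, 0 ≤ c → c < cs → 0 < thr (d + 1 - m) d c)) ∧
    ∃ C C' : ℝ, ∃ n0 : ℕ, ∀ n ≥ n0, ∀ r : ℕ,
      Gen (n := n) (r := r) fun P => Mid m d n r cs C C' P := by
  obtain ⟨cs, h1, h2, h3, C, C', n0, h4⟩ := main rBEL rABV rMID rEEB rHIL m d hm hd
  refine ⟨cs, ⟨h1, h2, h3⟩, C, C', n0, fun n hn r => ?_⟩
  obtain ⟨hA, hB, hC⟩ := h4 n hn r
  refine Gen.and ?_ (Gen.and ?_ ?_)
  · refine Gen.imp fun hr => ?_
    obtain ⟨hA1, G, hG0, hG⟩ := hA hr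
    refine ⟨G, hG0, fun P hP => ?_⟩
    obtain ⟨h5, h6⟩ := hG P hP
    refine ⟨h6, ?_⟩
    obtain ⟨-, f, hf1, hf2, hf3⟩ := hA1 P h5
    have h7 := exists_nonzero_of hf1 hf2 hf3
    rw [h6] at h7
    exact h7
  · refine Gen.imp fun hr => ?_
    obtain ⟨G, hG0, hG⟩ := hB hr
    exact ⟨G, hG0, fun P hP => (hG P hP).2 d le_rfl⟩
  · refine Gen.imp fun hr => ?_
    obtain ⟨G, hG0, hG⟩ := hC hr
    exact ⟨G, hG0, fun P hP => (hG P hP).2⟩

theorem large (m : ℕ) (hm : 1 ≤ m) : ∃ cs C C' : ℕ → ℝ,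
    (∀ d, m + 1 ≤ d → 0 < cs d ∧ thr (d + 1 - m) d (cs d) = 0 ∧
      (∀ c, 0 ≤ c → c < cs d → 0 < thr (d + 1 - m) d c)) ∧
    ∃ n0 : ℕ, ∀ n ≥ n0, ∀ r ≥ 1,
      ∃ G : MvPolynomial (Fin r × Fin (n + 1)) ℂ, G ≠ 0 ∧
        ∀ P : Fin r → Fin (n + 1) → ℂ, eval (fun x => P x.1 x.2) G ≠ 0 →
          (∀ i, P i ≠ 0) ∧
          (∀ d, d < m → hilb (fatIdeal P m) d = ((n + d).choose n : ℝ)) ∧
          hilb (fatIdeal P m) m = ((n + m).choose n : ℝ) -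
            (if r ≤ n then ((n + m - r).choose m : ℝ) else 0) ∧
          (∀ d, m + 1 ≤ d → d ≤ 2 * m - 2 → Mid m d n r (cs d) (C d) (C' d) P) ∧
          (∀ d, 2 * m - 1 ≤ d →
            (4 * m - 3 ≤ d ∨
              r * (n + m - 1).choose n + (n + m).choose (n + 1) ^ 2 ≤ (n + d).choose n ∨
              (n + d).choose n + 2 * (n + m).choose (n + 1) ^ 2 + 1 ≤
                r * (n + m - 1).choose n) →
            hilb (fatIdeal P m) d =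
              ((min ((n + d).choose n) (r * (n + m - 1).choose n) : ℕ) : ℝ)) := by
  have h0 : ∀ d : ℕ, ∃ cs C C' : ℝ, ∃ n0 : ℕ, m + 1 ≤ d → (0 < cs ∧
      thr (d + 1 - m) d cs = 0 ∧ (∀ c, 0 ≤ c → c < cs → 0 < thr (d + 1 - m) d c)) ∧
      ∀ n ≥ n0, ∀ r : ℕ, Gen (n := n) (r := r) fun P => Mid m d n r cs C C' P := by
    intro d
    by_cases hd : m + 1 ≤ d
    · obtain ⟨cs, h1, C, C', n0, h2⟩ := mid_one m d hm hd
      exact ⟨cs, C, C', n0, fun _ => ⟨h1, h2⟩⟩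
    · exact ⟨0, 0, 0, 0, fun h => absurd h hd⟩
  choose cs C C' n0 h1 using h0
  refine ⟨cs, C, C', fun d hd => (h1 d hd).1, ?_⟩
  refine ⟨max (27 ^ m + 1) ((Finset.Icc (m + 1) (2 * m - 2)).sup n0), fun n hn r hr => ?_⟩
  have hn1 : 27 ^ m < n := lt_of_lt_of_le (Nat.lt_succ_self _) ((le_max_left _ _).trans hn)
  have hn2 : ∀ d ∈ Finset.Icc (m + 1) (2 * m - 2), n0 d ≤ n := fun d hd =>
    (Finset.le_sup (f := n0) hd).trans ((le_max_right _ _).trans hn)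
  have g1 : Gen (n := n) (r := r) fun P => ∀ d ∈ Finset.Icc (m + 1) (2 * m - 2),
      Mid m d n r (cs d) (C d) (C' d) P := by
    refine Gen.ball _ fun d hd => ?_
    exact (h1 d (Finset.mem_Icc.1 hd).1).2 n (hn2 d hd) r
  have g2 := lin_all n m r hm
  have g3 := uni n m r hm hn1
  obtain ⟨G, hG0, hG⟩ := (Gen.and g1 (Gen.and g2 g3) : Gen (n := n) (r := r) _)
  refine ⟨G, hG0, fun P hP => ?_⟩
  obtain ⟨h2, h3, h4⟩ := hG P hP
  exact ⟨h3.1, fun d hd => hilb_low hr P hd, h3.2,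
    fun d hd1 hd2 => h2 d (Finset.mem_Icc.2 ⟨hd1, hd2⟩), h4.2⟩

end Pool.Agent.Helper65.HFL
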