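import Mathlib

/-!
The polynomial `x (x + 1) ... (x + c - 1) / c!`.
-/

namespace Pool.Agent.Helper65.HFL

/-- The polynomial `x (x + 1) ... (x + c - 1) / c!`. -/
noncomputable def bet (c : ℕ) (x : ℝ) : ℝ := ∏ i ∈ Finset.range c, (x + i) / (i + 1)

theorem bet_zero (x : ℝ) : bet 0 x = 1 := by
  unfold bet
  simp

theorem bet_succ (c : ℕ) (x : ℝ) : bet (c + 1) x = bet c x * ((x + c) / (c + 1)) := by
  unfold bet
  rw [Finset.prod_range_succ]

theorem bet_one (c : ℕ) : bet c 1 = 1 := by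
  induction c with
  | zero => exact bet_zero 1
  | succ c ih =>
    rw [bet_succ, ih, one_mul, add_comm (1 : ℝ) c, div_self]
    positivity

theorem bet_nonneg (c : ℕ) {x : ℝ} (hx : 0 ≤ x) : 0 ≤ bet c x := by
  unfold bet
  positivity

theorem bet_pos (c : ℕ) {x : ℝ} (hx : 0 < x) : 0 < bet c x := by
  unfold bet
  positivity

theorem bet_mono (c : ℕ) {x y : ℝ} (hx : 0 ≤ x) (hxy : x ≤ y) : bet c x ≤ bet c y := by
  unfold bet
  refine Finset.prod_le_prod (fun i _ => by positivity) fun i _ => ?_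
  gcongr

theorem bet_strict {c : ℕ} (hc : 1 ≤ c) {x y : ℝ} (hx : 0 ≤ x) (hxy : x < y) :
    bet c x < bet c y := by
  obtain ⟨c, rfl⟩ : ∃ c', c = c' + 1 := ⟨c - 1, by omega⟩
  have hy : 0 < y := lt_of_le_of_lt hx hxy
  rw [bet_succ, bet_succ]
  calc bet c x * ((x + c) / (c + 1)) ≤ bet c y * ((x + c) / (c + 1)) :=
        mul_le_mul_of_nonneg_right (bet_mono c hx hxy.le) (by positivity)
    _ < bet c y * ((y + c) / (c + 1)) := by
        refine mul_lt_mul_of_pos_left ?_ (bet_pos c hy)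
        gcongr

theorem le_of_bet_le {c : ℕ} (hc : 1 ≤ c) {x y : ℝ} (hy : 0 ≤ y) (h : bet c x ≤ bet c y) :
    x ≤ y := by
  by_contra hlt
  push Not at hlt
  exact absurd h (not_le.2 (bet_strict hc hy hlt))

theorem one_le_of_bet {c : ℕ} (hc : 1 ≤ c) {x : ℝ} (hx : 0 ≤ x) (h : 1 ≤ bet c x) : 1 ≤ x := by
  rw [← bet_one c] at h
  exact le_of_bet_le hc hx h

theorem le_bet {c : ℕ} (hc : 1 ≤ c) {x : ℝ} (hx : 1 ≤ x) : x ≤ bet c x := by
  obtain ⟨c, rfl⟩ : ∃ c', c = c' + 1 := ⟨c - 1, by omega⟩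
  induction c with
  | zero => rw [bet_succ, bet_zero]; simp
  | succ c ih =>
    rw [bet_succ]
    have h1 := ih (by omega)
    have h2 : (1 : ℝ) ≤ (x + ((c + 1 : ℕ) : ℝ)) / (((c + 1 : ℕ) : ℝ) + 1) := by
      rw [le_div_iff₀ (by positivity)]
      linarith
    calc x ≤ bet (c + 1) x := h1
      _ = bet (c + 1) x * 1 := by ring
      _ ≤ _ := mul_le_mul_of_nonneg_left h2 (bet_nonneg _ (by linarith))

theorem bet_continuous (c : ℕ) : Continuous (bet c) := by
  unfold bet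
  fun_prop

theorem exists_bet {c : ℕ} (hc : 1 ≤ c) {h : ℝ} (hh : 1 ≤ h) : ∃ x, 1 ≤ x ∧ bet c x = h := by
  have h1 := intermediate_value_Icc hh (bet_continuous c).continuousOn
  have h2 : h ∈ Set.Icc (bet c 1) (bet c h) := ⟨by rw [bet_one]; exact hh, le_bet hc hh⟩
  obtain ⟨x, hx, hx2⟩ := h1 h2
  exact ⟨x, hx.1, hx2⟩

theorem bet_shift (c : ℕ) (z : ℝ) : bet (c + 1) (z - 1) = bet c z * ((z - 1) / (c + 1)) := by
  induction c with
  | zero => rw [bet_succ, bet_zero, bet_zero]; simp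
  | succ c ih =>
    rw [bet_succ (c + 1) (z - 1), ih, bet_succ c z]
    push_cast
    have h1 : z - 1 + ((c : ℝ) + 1) = z + c := by ring
    rw [h1]
    ring

/-- Pascal's rule. -/
theorem bet_pascal (c : ℕ) (z : ℝ) : bet (c + 1) z = bet c z + bet (c + 1) (z - 1) := by
  rw [bet_shift, bet_succ]
  have h : ((c : ℝ) + 1) ≠ 0 := by positivity
  field_simp
  ring

theorem bet_nat (N c : ℕ) : bet c ((N + 1 : ℕ) : ℝ) = ((N + c).choose c : ℝ) := by
  induction c with
  | zero => rw [bet_zero]; simp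
  | succ c ih =>
    rw [bet_succ, ih]
    have h1 := Nat.add_one_mul_choose_eq (N + c) c
    have h2 : ((N : ℝ) + c + 1) * ((N + c).choose c : ℝ) =
        ((N + c + 1).choose (c + 1) : ℝ) * ((c : ℝ) + 1) := by exact_mod_cast h1
    have h3 : N + (c + 1) = N + c + 1 := by omega
    rw [h3]
    have h4 : ((c : ℝ) + 1) ≠ 0 := by positivity
    push_cast
    field_simp
    linarith

theorem bet_ratio (c : ℕ) {x : ℝ} (hx : 1 ≤ x) : bet c x ≤ bet (c + 1) x := by
  rw [bet_succ]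
  have h2 : (1 : ℝ) ≤ (x + (c : ℝ)) / ((c : ℝ) + 1) := by
    rw [le_div_iff₀ (by positivity)]
    linarith
  calc bet c x = bet c x * 1 := by ring
    _ ≤ _ := mul_le_mul_of_nonneg_left h2 (bet_nonneg _ (by linarith))

end Pool.Agent.Helper65.HFL
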