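import Mathlib
import Pool.Agent.Helper65.HF.All

/-!
The correlation inequality for general fat points.
-/

namespace Pool.Agent.Helper65.HFL

open MvPolynomial Pool.Agent.Helper45 Pool.Agent.Helper65.HF

theorem tl_eq_srt (M c : ℕ) : tl M (fun _ => 0) 0 c 0 = srt M c := by
  ext l
  rw [mem_tl, mem_srt]
  constructor
  · exact fun h => h.1
  · exact fun h => ⟨h, fun x _ => Nat.zero_le x, fun u _ => Nat.zero_le _⟩

/-- Two upward closed conditions are positively correlated. -/
theorem corr (M c : ℕ) {A B : List ℕ → Prop}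
    (hA : ∀ l ∈ srt M c, ∀ l' ∈ srt M c, LeL l l' → A l → A l')
    (hB : ∀ l ∈ srt M c, ∀ l' ∈ srt M c, LeL l l' → B l → B l') :
    (num (srt M c) A : ℝ) * num (srt M c) B ≤
      ((srt M c).card : ℝ) * num (srt M c) (fun l => A l ∧ B l) := by
  classical
  have h := rFKG M (fun _ => 0) 0 c 0 (fun l => if A l then 1 else 0)
    (fun l => if B l then 1 else 0) (fun l _ => by positivity) (fun l _ => by positivity)
    (fun l hl l' hl' hle => ?_) (fun l hl l' hl' hle => ?_)
  · rw [tl_eq_srt] at h
    rw [num_eq_sum, num_eq_sum, num_eq_sum]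
    push_cast
    refine h.trans (le_of_eq ?_)
    congr 1
    refine Finset.sum_congr rfl fun l _ => ?_
    by_cases h1 : A l <;> by_cases h2 : B l <;> simp [h1, h2]
  · rw [tl_eq_srt] at hl hl'
    by_cases h1 : A l
    · rw [if_pos h1, if_pos (hA l hl l' hl' hle h1)]
    · rw [if_neg h1]
      positivity
  · rw [tl_eq_srt] at hl hl'
    by_cases h1 : B l
    · rw [if_pos h1, if_pos (hB l hl l' hl' hle h1)]
    · rw [if_neg h1]
      positivity

/-- The lists ending with `j` copies of `N`. -/
abbrev Ends (j N : ℕ) (l : List ℕ) : Prop := ∃ l', l = l' ++ List.replicate j N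

theorem ends_up {j N c : ℕ} : ∀ l ∈ srt (N + 1) c, ∀ l' ∈ srt (N + 1) c, LeL l l' →
    Ends j N l → Ends j N l' := by
  rintro l hl l' hl' hle ⟨a, rfl⟩
  rw [mem_srt] at hl hl'
  refine ⟨l'.take a.length, ?_⟩
  have hlen : l'.length = a.length + j := by
    rw [← hle.length_eq, List.length_append, List.length_replicate]
  have h1 : l'.drop a.length = List.replicate j N := by
    rw [List.eq_replicate_iff]
    refine ⟨by rw [List.length_drop]; omega, fun b hb => ?_⟩
    have hb' : b ≤ N := Nat.lt_succ_iff.1 (hl'.2.2 b (List.mem_of_mem_drop hb))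
    refine le_antisymm hb' ?_
    have h2 : LeL (List.replicate j N) (l'.drop a.length) := by
      have h3 := List.forall₂_drop a.length hle
      rwa [List.drop_left] at h3
    obtain ⟨i, hi, rfl⟩ := List.mem_iff_getElem.1 hb
    have h4 := List.forall₂_iff_get.1 h2
    have hi' : i < (List.replicate j N).length := by rw [h4.1]; exact hi
    have h5 := h4.2 i hi' hi
    simpa using h5
  rw [← h1, List.take_append_drop]

/-- the leading exponent condition for a space of forms -/
def QV {F : Type} [Field F] {N : ℕ} (V : Submodule F (MvPolynomial (Fin N) F))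
    (m : Fin N →₀ ℕ) : Prop :=
  ∃ f ∈ V, f.coeff m ≠ 0 ∧ ∀ b, RL m b → f.coeff b = 0

theorem monomial_ok {F : Type} [Field F] {N : ℕ}
    (V : Submodule F (MvPolynomial (Fin N) F)) (m : Fin N →₀ ℕ) (hm : monomial m (1 : F) ∈ V) :
    QV V m := by
  classical
  refine ⟨monomial m 1, hm, ?_, ?_⟩
  · rw [coeff_monomial, if_pos rfl]
    exact one_ne_zero
  · intro b hb
    rw [coeff_monomial, if_neg]
    rintro rfl
    exact (rRLO N).1 m hb

theorem card_srt (N c : ℕ) : (srt N c).card = (N + c - 1).choose c := by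
  have h1 := rCNV ℚ N c (homogeneousSubmodule (Fin N) ℚ c) le_rfl
  rw [finrank_homog, Fintype.card_fin] at h1
  rw [← num_true, ← h1, rLSM.1 N c (fun _ => True)]
  refine Nat.card_congr (Equiv.subtypeEquivRight fun m => ?_)
  constructor
  · rintro ⟨h, -⟩
    exact ⟨h, monomial_ok _ m (isHomogeneous_monomial _ h)⟩
  · rintro ⟨h, -⟩
    exact ⟨h, trivial⟩

theorem num_ends {j N c : ℕ} (hjc : j ≤ c) :
    num (srt (N + 1) c) (Ends j N) = (N + (c - j)).choose (c - j) := by
  classical
  have h1 : (srt (N + 1) c).filter (Ends j N) =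
      (srt (N + 1) (c - j)).image (fun l => l ++ List.replicate j N) := by
    ext l
    rw [Finset.mem_filter, Finset.mem_image]
    constructor
    · rintro ⟨hl, a, rfl⟩
      refine ⟨a, ?_, rfl⟩
      rw [mem_srt] at hl ⊢
      obtain ⟨h2, h3, h4⟩ := hl
      rw [List.length_append, List.length_replicate] at h2
      exact ⟨by omega, (List.pairwise_append.1 h3).1, fun x hx => h4 x (List.mem_append_left _ hx)⟩
    · rintro ⟨a, ha, rfl⟩
      refine ⟨?_, a, rfl⟩
      rw [mem_srt] at ha ⊢
      obtain ⟨h2, h3, h4⟩ := ha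
      refine ⟨by rw [List.length_append, List.length_replicate]; omega,
        Pool.Agent.Helper38.HF.TRA.srt_append_replicate h3 fun x hx => Nat.lt_succ_iff.1 (h4 x hx),
        fun x hx => ?_⟩
      rcases List.mem_append.1 hx with hx | hx
      · exact h4 x hx
      · rw [List.eq_of_mem_replicate hx]
        exact Nat.lt_succ_self N
  have h2 : num (srt (N + 1) c) (Ends j N) = ((srt (N + 1) c).filter (Ends j N)).card := by
    unfold num
    congr 1
  rw [h2, h1, Finset.card_image_of_injective _ (fun a b hab => List.append_cancel_right hab),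
    card_srt]
  congr 1
  omega

/-- One more general point kills at least the natural proportion of the forms. -/
theorem H_step {j N r c : ℕ} (hj : 1 ≤ j) (hjc : j ≤ c) :
    (H ℂ j (N + 1) (r + 1) c : ℝ) ≤ (H ℂ j (N + 1) r c : ℝ) *
      (1 - ((N + (c - j)).choose (c - j) : ℝ) / ((N + c).choose c : ℝ)) := by
  obtain ⟨St, hUp, -, -, hcount, hnew⟩ := rALG ℂ j r hj
  have h1 := hnew N c hjc
  have h2 := corr (N + 1) c (A := St) (B := Ends j N)
    (fun l hl l' hl' hle h => hUp l l' ((mem_srt.1 hl).2.1) ((mem_srt.1 hl').2.1) hle h) ends_up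
  have h3 : num (srt (N + 1) c) (fun l => St l ∧ ¬ ∃ l', l = l' ++ List.replicate j N) +
      num (srt (N + 1) c) (fun l => St l ∧ Ends j N l) = num (srt (N + 1) c) St := by
    classical
    rw [num_eq_sum, num_eq_sum, num_eq_sum, ← Finset.sum_add_distrib]
    refine Finset.sum_congr rfl fun l _ => ?_
    by_cases h4 : St l <;> by_cases h5 : Ends j N l <;> simp [h4, h5]
  rw [num_ends hjc, card_srt, hcount] at h2
  rw [hcount] at h3
  have e1 : N + 1 + c - 1 = N + c := by omega
  rw [e1] at h2
  have hpos : (0 : ℝ) < ((N + c).choose c : ℝ) := by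
    exact_mod_cast Nat.choose_pos (Nat.le_add_left c N)
  have h6 : (H ℂ j (N + 1) (r + 1) c : ℝ) + num (srt (N + 1) c) (fun l => St l ∧ Ends j N l) ≤
      H ℂ j (N + 1) r c := by
    have : H ℂ j (N + 1) (r + 1) c + num (srt (N + 1) c) (fun l => St l ∧ Ends j N l) ≤
      H ℂ j (N + 1) r c := by omega
    exact_mod_cast this
  have h7 : (H ℂ j (N + 1) r c : ℝ) * (((N + (c - j)).choose (c - j) : ℝ) /
      ((N + c).choose c : ℝ)) ≤ num (srt (N + 1) c) (fun l => St l ∧ Ends j N l) := by
    rw [← mul_div_assoc, div_le_iff₀ hpos]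
    linarith
  linarith

theorem H_bound {j N c : ℕ} (hj : 1 ≤ j) (hjc : j ≤ c) (r : ℕ) :
    (H ℂ j (N + 1) r c : ℝ) ≤ ((N + c).choose c : ℝ) *
      (1 - ((N + (c - j)).choose (c - j) : ℝ) / ((N + c).choose c : ℝ)) ^ r := by
  have hle : ((N + (c - j)).choose (c - j) : ℝ) / ((N + c).choose c : ℝ) ≤ 1 := by
    have h1 : (N + (c - j)).choose (c - j) ≤ (N + c).choose c := by
      rw [← Nat.choose_symm_add, ← Nat.choose_symm_add]
      exact Nat.choose_le_choose N (by omega)
    have hpos : (0 : ℝ) < ((N + c).choose c : ℝ) := by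
      exact_mod_cast Nat.choose_pos (Nat.le_add_left c N)
    rw [div_le_one hpos]
    exact_mod_cast h1
  induction r with
  | zero =>
    have h1 := (rHUP ℂ j (N + 1) 0 c hj).2.1
    rw [h1, pow_zero, mul_one]
    have e1 : N + 1 + c - 1 = N + c := by omega
    rw [e1]
  | succ r ih =>
    calc (H ℂ j (N + 1) (r + 1) c : ℝ) ≤ _ := H_step hj hjc
      _ ≤ _ := mul_le_mul_of_nonneg_right ih (by linarith)
      _ = _ := by rw [pow_succ]; ring

end Pool.Agent.Helper65.HFL
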