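import Mathlib
import Pool.Agent.Helper65.HFL.Fkg
import Pool.Agent.Helper65.HFL.Beta

/-!
A growth inequality for upward closed sets of nondecreasing lists (monomials).
-/

namespace Pool.Agent.Helper65.HFL

open Pool.Agent.Helper65.HF

/-- Upward closed among the lists of length `c` with entries `< N`. -/
def UpN (N c : ℕ) (St : List ℕ → Prop) : Prop :=
  ∀ l ∈ srt N c, ∀ l' ∈ srt N c, LeL l l' → St l → St l'

theorem srt_append {N c : ℕ} {l : List ℕ} (hl : l ∈ srt (N + 1) c) :
    l ++ [N] ∈ srt (N + 1) (c + 1) := by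
  rw [mem_srt] at hl ⊢
  obtain ⟨h1, h2, h3⟩ := hl
  refine ⟨by rw [List.length_append, h1]; rfl, ?_, fun x hx => ?_⟩
  · exact Pool.Agent.Helper38.HF.TRA.srt_append_one h2 fun x hx => Nat.lt_succ_iff.1 (h3 x hx)
  · rcases List.mem_append.1 hx with hx | hx
    · exact h3 x hx
    · rw [List.mem_singleton.1 hx]
      exact Nat.lt_succ_self N

theorem srt_mono {N c : ℕ} {l : List ℕ} (hl : l ∈ srt N c) : l ∈ srt (N + 1) c := by
  rw [mem_srt] at hl ⊢
  exact ⟨hl.1, hl.2.1, fun x hx => Nat.lt_succ_of_lt (hl.2.2 x hx)⟩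

theorem srt_cases {N c : ℕ} {l : List ℕ} (hl : l ∈ srt (N + 1) (c + 1)) :
    (∃ l' ∈ srt (N + 1) c, l = l' ++ [N]) ∨ l ∈ srt N (c + 1) := by
  rw [mem_srt] at hl
  obtain ⟨h1, h2, h3⟩ := hl
  have hne : l ≠ [] := by
    rintro rfl
    simp at h1
  have h4 := List.dropLast_append_getLast hne
  rcases Nat.lt_or_ge (l.getLast hne) N with h5 | h5
  · right
    rw [mem_srt]
    refine ⟨h1, h2, fun x hx => ?_⟩
    rw [← h4] at hx h2
    rcases List.mem_append.1 hx with hx | hx
    · have h6 := (List.pairwise_append.1 h2).2.2 x hx (l.getLast hne) (List.mem_singleton_self _)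
      omega
    · rw [List.mem_singleton.1 hx]
      exact h5
  · left
    have h6 : l.getLast hne = N := by
      have := h3 _ (List.getLast_mem hne)
      omega
    refine ⟨l.dropLast, ?_, by rw [← h6, h4]⟩
    rw [mem_srt]
    refine ⟨by rw [List.length_dropLast, h1]; rfl, ?_, fun x hx => ?_⟩
    · exact List.Pairwise.sublist (List.dropLast_sublist l) h2
    · exact h3 x (List.mem_of_mem_dropLast hx)

theorem num_split (N c : ℕ) (St : List ℕ → Prop) :
    num (srt (N + 1) (c + 1)) St =
      num (srt (N + 1) c) (fun l => St (l ++ [N])) + num (srt N (c + 1)) St := by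
  classical
  unfold num
  have h1 : (srt (N + 1) (c + 1)).filter St =
      ((srt (N + 1) c).filter (fun l => St (l ++ [N]))).image (fun l => l ++ [N]) ∪
        (srt N (c + 1)).filter St := by
    ext l
    rw [Finset.mem_union, Finset.mem_filter, Finset.mem_image, Finset.mem_filter]
    constructor
    · rintro ⟨hl, hS⟩
      rcases srt_cases hl with ⟨l', hl', rfl⟩ | h
      · left
        exact ⟨l', Finset.mem_filter.2 ⟨hl', hS⟩, rfl⟩
      · right
        exact ⟨h, hS⟩
    · rintro (⟨l', hl', rfl⟩ | ⟨hl, hS⟩)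
      · rw [Finset.mem_filter] at hl'
        exact ⟨srt_append hl'.1, hl'.2⟩
      · exact ⟨srt_mono hl, hS⟩
  have h2 : Disjoint (((srt (N + 1) c).filter (fun l => St (l ++ [N]))).image (fun l => l ++ [N]))
      ((srt N (c + 1)).filter St) := by
    rw [Finset.disjoint_left]
    rintro l hl hl2
    rw [Finset.mem_image] at hl
    obtain ⟨l', -, rfl⟩ := hl
    rw [Finset.mem_filter, mem_srt] at hl2
    have := hl2.1.2.2 N (List.mem_append_right _ (List.mem_singleton_self N))
    omega
  have h3 := Finset.card_union_of_disjoint h2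
  rw [Finset.card_image_of_injective _ (fun a b hab => List.append_cancel_right hab)] at h3
  rw [← h3]
  convert congrArg Finset.card h1 using 2

theorem lel_append_one {l l' : List ℕ} (h : LeL l l') {a b : ℕ} (hab : a ≤ b) :
    LeL (l ++ [a]) (l' ++ [b]) :=
  Pool.Agent.Helper38.HF.TRA.lel_append h (List.Forall₂.cons hab List.Forall₂.nil)

theorem lel_refl (l : List ℕ) : LeL l l := by
  induction l with
  | nil => exact List.Forall₂.nil
  | cons a l ih => exact List.Forall₂.cons le_rfl ih

theorem upN_append {N c : ℕ} {St : List ℕ → Prop} (h : UpN (N + 1) (c + 1) St) :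
    UpN (N + 1) c (fun l => St (l ++ [N])) := by
  intro l hl l' hl' hle hS
  exact h _ (srt_append hl) _ (srt_append hl') (lel_append_one hle le_rfl) hS

theorem upN_restrict {N c : ℕ} {St : List ℕ → Prop} (h : UpN (N + 1) c St) : UpN N c St :=
  fun l hl l' hl' hle hS => h l (srt_mono hl) l' (srt_mono hl') hle hS

theorem num_pos_iff' {s : Finset (List ℕ)} {Z : List ℕ → Prop} :
    1 ≤ num s Z ↔ ∃ l ∈ s, Z l := by
  classical
  unfold num
  rw [Nat.succ_le_iff, Finset.card_pos]
  constructor
  · rintro ⟨l, hl⟩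
    rw [Finset.mem_filter] at hl
    exact ⟨l, hl.1, hl.2⟩
  · rintro ⟨l, h1, h2⟩
    exact ⟨l, Finset.mem_filter.2 ⟨h1, h2⟩⟩

theorem e1_pos {N c : ℕ} {St : List ℕ → Prop} (h : UpN (N + 1) (c + 1) St)
    (h1 : 1 ≤ num (srt (N + 1) (c + 1)) St) :
    1 ≤ num (srt (N + 1) c) (fun l => St (l ++ [N])) := by
  rw [num_pos_iff'] at h1 ⊢
  obtain ⟨l, hl, hS⟩ := h1
  have hl0 := hl
  rw [mem_srt] at hl0
  obtain ⟨h1, h2, h3⟩ := hl0
  have hne : l ≠ [] := by
    rintro rfl
    simp at h1
  have h4 := List.dropLast_append_getLast hne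
  have h5 : l.dropLast ∈ srt (N + 1) c := by
    rw [mem_srt]
    refine ⟨by rw [List.length_dropLast, h1]; rfl, ?_, fun x hx => ?_⟩
    · exact List.Pairwise.sublist (List.dropLast_sublist l) h2
    · exact h3 x (List.mem_of_mem_dropLast hx)
  refine ⟨l.dropLast, h5, h l hl _ (srt_append h5) ?_ hS⟩
  conv_lhs => rw [← h4]
  exact lel_append_one (lel_refl _) (Nat.lt_succ_iff.1 (h3 _ (List.getLast_mem hne)))

theorem num_shadow {N c : ℕ} {St : List ℕ → Prop} (h : UpN (N + 1) (c + 1) St) :
    num (srt N c) (fun l => St (l ++ [N - 1])) ≤ num (srt N c) (fun l => St (l ++ [N])) := by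
  refine num_mono fun l hl hS => ?_
  refine h _ ?_ _ (srt_append (srt_mono hl)) (lel_append_one (lel_refl l) (Nat.sub_le N 1)) hS
  rw [mem_srt] at hl ⊢
  obtain ⟨h1, h2, h3⟩ := hl
  refine ⟨by rw [List.length_append, h1]; rfl, ?_, fun x hx => ?_⟩
  · refine Pool.Agent.Helper38.HF.TRA.srt_append_one h2 fun x hx => ?_
    have := h3 x hx
    omega
  · rcases List.mem_append.1 hx with hx | hx
    · exact Nat.lt_succ_of_lt (h3 x hx)
    · rw [List.mem_singleton.1 hx]
      omega

/-- The growth inequality. -/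
theorem mac (N : ℕ) : ∀ (c : ℕ) (St : List ℕ → Prop), UpN N (c + 1) St → ∀ x : ℝ, 1 ≤ x →
    bet (c + 1) x ≤ (num (srt N (c + 1)) St : ℝ) →
    bet c x ≤ (num (srt N c) (fun l => St (l ++ [N - 1])) : ℝ) := by
  induction N with
  | zero =>
    intro c St _ x hx h
    have h1 : num (srt 0 (c + 1)) St = 0 := by
      by_contra hne
      obtain ⟨l, hl, -⟩ := num_pos_iff'.1 (Nat.one_le_iff_ne_zero.2 hne)
      rw [mem_srt] at hl
      obtain ⟨h2, -, h3⟩ := hl
      cases l with
      | nil => simp at h2
      | cons a l => exact absurd (h3 a List.mem_cons_self) (Nat.not_lt_zero a)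
    rw [h1, Nat.cast_zero] at h
    exact absurd h (not_le.2 (bet_pos _ (by linarith)))
  | succ N ihN =>
    intro c
    rw [Nat.add_sub_cancel]
    induction c with
    | zero =>
      intro St hUp x hx h
      rw [bet_zero]
      have h1 : 1 ≤ num (srt (N + 1) (0 + 1)) St := by
        by_contra hne
        have h2 : num (srt (N + 1) (0 + 1)) St = 0 := by omega
        rw [h2, Nat.cast_zero] at h
        exact absurd h (not_le.2 (bet_pos _ (by linarith)))
      exact_mod_cast e1_pos hUp h1
    | succ c ihc =>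
      intro St hUp x hx h
      by_contra hlt
      push Not at hlt
      have h1 : 1 ≤ num (srt (N + 1) (c + 1 + 1)) St := by
        by_contra hne
        have h2 : num (srt (N + 1) (c + 1 + 1)) St = 0 := by omega
        rw [h2, Nat.cast_zero] at h
        exact absurd h (not_le.2 (bet_pos _ (by linarith)))
      have h2 := e1_pos hUp h1
      obtain ⟨z, hz1, hz⟩ := exists_bet (c := c + 1) (by omega)
        (h := (num (srt (N + 1) (c + 1)) (fun l => St (l ++ [N])) : ℝ)) (by exact_mod_cast h2)
      have hzx : z < x := by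
        by_contra hge
        push Not at hge
        have := bet_mono (c + 1) (by linarith : (0 : ℝ) ≤ x) hge
        linarith
      have h3 := ihc (fun l => St (l ++ [N])) (upN_append hUp) z hz1 hz.le
      have h4 := num_split N c (fun l => St (l ++ [N]))
      have h4R : (num (srt (N + 1) (c + 1)) (fun l => St (l ++ [N])) : ℝ) =
          (num (srt (N + 1) c) (fun l => St (l ++ [N] ++ [N])) : ℝ) +
            (num (srt N (c + 1)) (fun l => St (l ++ [N])) : ℝ) := by exact_mod_cast h4
      have h5 := bet_pascal c z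
      have h6 : (num (srt N (c + 1)) (fun l => St (l ++ [N])) : ℝ) ≤ bet (c + 1) (z - 1) := by
        linarith
      have h7 := num_split N (c + 1) St
      have h7R : (num (srt (N + 1) (c + 1 + 1)) St : ℝ) =
          (num (srt (N + 1) (c + 1)) (fun l => St (l ++ [N])) : ℝ) +
            (num (srt N (c + 1 + 1)) St : ℝ) := by exact_mod_cast h7
      have h8 : (num (srt N (c + 1 + 1)) St : ℝ) ≤ bet (c + 1 + 1) (z - 1) := by
        rcases Nat.eq_zero_or_pos (num (srt N (c + 1 + 1)) St) with h0 | h0
        · rw [h0, Nat.cast_zero]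
          exact bet_nonneg _ (by linarith)
        · obtain ⟨w, hw1, hw⟩ := exists_bet (c := c + 1 + 1) (by omega)
            (h := (num (srt N (c + 1 + 1)) St : ℝ)) (by exact_mod_cast h0)
          have h9 := ihN (c + 1) St (upN_restrict hUp) w hw1 hw.le
          have h10 : (num (srt N (c + 1)) (fun l => St (l ++ [N - 1])) : ℝ) ≤
              (num (srt N (c + 1)) (fun l => St (l ++ [N])) : ℝ) := by
            exact_mod_cast num_shadow hUp
          have h11 : w ≤ z - 1 := le_of_bet_le (c := c + 1) (by omega) (by linarith)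
            (h9.trans (h10.trans h6))
          rw [← hw]
          exact bet_mono _ (by linarith) h11
      have h12 := bet_pascal (c + 1) z
      have h13 := bet_strict (c := c + 1 + 1) (by omega) (by linarith : (0 : ℝ) ≤ z) hzx
      linarith

end Pool.Agent.Helper65.HFL
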