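import Mathlib
import Pool.Agent.Helper65.HFL.Beta

/-!
The numerical part: comparison of a decreasing sequence with the exact sequence in degree `m`.
-/

namespace Pool.Agent.Helper65.HFL

/-- The quotient of `bet (μ + 1 + s)` by `bet μ`. -/
noncomputable def Zf (μ : ℕ) : ℕ → ℝ → ℝ
  | 0, x => (x + μ) / (μ + 1)
  | s + 1, x => Zf μ s x * ((x + (μ + 1 + s)) / (μ + 1 + s + 1))

/-- The shifted quotient. -/
noncomputable def Yf (μ s : ℕ) (x : ℝ) : ℝ := (μ + 1) * Zf μ s x - μ

theorem bet_Zf (μ s : ℕ) (x : ℝ) : bet (μ + 1 + s) x = bet μ x * Zf μ s x := by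
  induction s with
  | zero =>
    rw [Nat.add_zero, bet_succ]
    rfl
  | succ s ih =>
    rw [← Nat.add_assoc, bet_succ, ih]
    change _ = bet μ x * (Zf μ s x * ((x + (μ + 1 + s)) / (μ + 1 + s + 1)))
    push_cast
    ring

theorem Yf_zero (μ : ℕ) (x : ℝ) : Yf μ 0 x = x := by
  unfold Yf
  change (μ + 1) * ((x + μ) / (μ + 1)) - (μ : ℝ) = x
  have h : ((μ : ℝ) + 1) ≠ 0 := by positivity
  field_simp
  ring

theorem Yf_succ (μ s : ℕ) (x : ℝ) : Yf μ (s + 1) x =
    Yf μ s x * ((x + (μ + 1 + s)) / (μ + 1 + s + 1)) + μ * ((x - 1) / (μ + 1 + s + 1)) := by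
  unfold Yf
  change (μ + 1) * (Zf μ s x * ((x + (μ + 1 + s)) / (μ + 1 + s + 1))) - (μ : ℝ) = _
  have h : ((μ : ℝ) + 1 + s + 1) ≠ 0 := by positivity
  field_simp
  ring

theorem le_Yf (μ s : ℕ) {x : ℝ} (hx : 1 ≤ x) : x ≤ Yf μ s x := by
  induction s with
  | zero => rw [Yf_zero]
  | succ s ih =>
    rw [Yf_succ]
    have h1 : (1 : ℝ) ≤ (x + (μ + 1 + s)) / (μ + 1 + s + 1) := by
      rw [le_div_iff₀ (by positivity)]
      linarith
    have h2 : 0 ≤ (μ : ℝ) * ((x - 1) / (μ + 1 + s + 1)) :=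
      mul_nonneg (by positivity) (div_nonneg (by linarith) (by positivity))
    have h3 : Yf μ s x * 1 ≤ Yf μ s x * ((x + (μ + 1 + s)) / (μ + 1 + s + 1)) :=
      mul_le_mul_of_nonneg_left h1 (by linarith)
    linarith

/-- The quotient `(Y + i) / (x + i)` is nondecreasing. -/
theorem Yf_cross (μ s i : ℕ) (hi : i ≤ μ) {x y : ℝ} (hx : 1 ≤ x) (hxy : x ≤ y) :
    (Yf μ s x + i) * (y + i) ≤ (Yf μ s y + i) * (x + i) := by
  induction s with
  | zero => rw [Yf_zero, Yf_zero]; exact le_of_eq (mul_comm _ _)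
  | succ s ih =>
    have hy : 1 ≤ y := hx.trans hxy
    have hi' : (i : ℝ) ≤ μ := by exact_mod_cast hi
    have hi0 : (0 : ℝ) ≤ i := by positivity
    have hq : (0 : ℝ) < μ + 1 + s + 1 := by positivity
    set q : ℝ := μ + 1 + s + 1 with hqdef
    have e : ∀ z : ℝ, Yf μ (s + 1) z + i =
        (Yf μ s z + i) * ((z + (μ + 1 + s)) / q) + (μ - i) * ((z - 1) / q) := by
      intro z
      rw [Yf_succ, ← hqdef]
      have h1 : (z + (μ + 1 + s)) / q = 1 + (z - 1) / q := by
        field_simp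
        rw [hqdef]
        ring
      rw [h1]
      ring
    rw [e, e]
    have hYx := le_Yf μ s hx
    have hYy := le_Yf μ s hy
    have ha : (x + (μ + 1 + s)) / q ≤ (y + (μ + 1 + s)) / q := by gcongr
    have ha0 : 0 ≤ (x + (μ + 1 + s)) / q := by positivity
    have h2 : (Yf μ s x + i) * ((x + (μ + 1 + s)) / q) * (y + i) ≤
        (Yf μ s y + i) * ((y + (μ + 1 + s)) / q) * (x + i) := by
      calc (Yf μ s x + i) * ((x + (μ + 1 + s)) / q) * (y + i) =
          ((Yf μ s x + i) * (y + i)) * ((x + (μ + 1 + s)) / q) := by ring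
        _ ≤ ((Yf μ s y + i) * (x + i)) * ((y + (μ + 1 + s)) / q) :=
          mul_le_mul ih ha ha0 (mul_nonneg (by linarith) (by linarith))
        _ = _ := by ring
    have h3 : (x - 1) * (y + i) ≤ (y - 1) * (x + i) := by nlinarith
    have h4 : (μ - i) * ((x - 1) / q) * (y + i) ≤ (μ - i) * ((y - 1) / q) * (x + i) := by
      have e1 : (μ - i) * ((x - 1) / q) * (y + i) = ((μ - i) / q) * ((x - 1) * (y + i)) := by ring
      have e2 : (μ - i) * ((y - 1) / q) * (x + i) = ((μ - i) / q) * ((y - 1) * (x + i)) := by ring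
      rw [e1, e2]
      exact mul_le_mul_of_nonneg_left h3 (div_nonneg (by linarith) hq.le)
    linarith

theorem bet_cross (μ s : ℕ) {x y : ℝ} (hx : 1 ≤ x) (hxy : x ≤ y) :
    bet μ (Yf μ s x) * bet μ y ≤ bet μ (Yf μ s y) * bet μ x := by
  have hy : 1 ≤ y := hx.trans hxy
  have hYx := le_Yf μ s hx
  unfold bet
  rw [← Finset.prod_mul_distrib, ← Finset.prod_mul_distrib]
  refine Finset.prod_le_prod (fun i _ => ?_) fun i hi => ?_
  · have h0 : (0 : ℝ) ≤ i := by positivity
    have h1 : 0 ≤ Yf μ s x + i := by linarith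
    have h2 : 0 ≤ y + i := by linarith
    exact mul_nonneg (div_nonneg h1 (by positivity)) (div_nonneg h2 (by positivity))
  · rw [Finset.mem_range] at hi
    have h1 := Yf_cross μ s i hi.le hx hxy
    rw [div_mul_div_comm, div_mul_div_comm]
    gcongr

/-- The comparison. -/
theorem compare (μ s N : ℕ) (h : ℕ → ℕ) (h0 : (h 0 : ℝ) = bet (μ + 1 + s) ((N + 1 : ℕ) : ℝ))
    (hstep : ∀ r, ∀ x : ℝ, 1 ≤ x → bet (μ + 1 + s) x ≤ h r → (h (r + 1) : ℝ) + bet μ x ≤ h r)
    (hmono : ∀ r, h (r + 1) ≤ h r) (r : ℕ) :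
    h r = 0 ∨ (1 ≤ Yf μ s ((N + 1 : ℕ) : ℝ) - r ∧
      bet (μ + 1) (Yf μ s ((N + 1 : ℕ) : ℝ)) * h r ≤
        bet (μ + 1 + s) ((N + 1 : ℕ) : ℝ) * bet (μ + 1) (Yf μ s ((N + 1 : ℕ) : ℝ) - r)) := by
  obtain ⟨R, hR⟩ : ∃ R : ℝ, R = ((N + 1 : ℕ) : ℝ) := ⟨_, rfl⟩
  rw [← hR] at h0 ⊢
  have hR1 : 1 ≤ R := by rw [hR]; push_cast; linarith [(Nat.cast_nonneg N : (0 : ℝ) ≤ N)]
  have hRpos : 0 < bet μ R := bet_pos μ (by linarith)
  set κ : ℝ := bet μ (Yf μ s R) / bet μ R with hκ
  have hY : ∀ x : ℝ, bet (μ + 1) (Yf μ s x) = bet μ (Yf μ s x) * Zf μ s x := by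
    intro x
    rw [bet_succ]
    congr 1
    unfold Yf
    have h : ((μ : ℝ) + 1) ≠ 0 := by positivity
    field_simp
    ring
  have hκx : ∀ x : ℝ, 1 ≤ x → x ≤ R → bet μ (Yf μ s x) ≤ κ * bet μ x := by
    intro x hx hxR
    have h1 := bet_cross μ s hx hxR
    rw [hκ, div_mul_eq_mul_div, le_div_iff₀ hRpos]
    exact h1
  have hκ1 : 1 ≤ κ := by
    have h1 := hκx 1 le_rfl hR1
    rw [bet_one, mul_one] at h1
    have h2 := bet_mono μ (x := 1) (y := Yf μ s 1) (by norm_num) (le_Yf μ s le_rfl)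
    rw [bet_one] at h2
    exact h2.trans h1
  have hκR : κ * bet (μ + 1 + s) R = bet (μ + 1) (Yf μ s R) := by
    rw [bet_Zf, hY, hκ]
    field_simp
  have hle0 : ∀ r, h r ≤ h 0 := by
    intro r
    induction r with
    | zero => exact le_rfl
    | succ r ih => exact (hmono r).trans ih
  have main : ∀ r, h r = 0 ∨ (1 ≤ Yf μ s R - r ∧ κ * h r ≤ bet (μ + 1) (Yf μ s R - r)) := by
    intro r
    induction r with
    | zero =>
      right
      rw [Nat.cast_zero, sub_zero]
      exact ⟨hR1.trans (le_Yf μ s hR1), by rw [h0, hκR]⟩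
    | succ r ih =>
      by_cases hz : h (r + 1) = 0
      · exact Or.inl hz
      right
      have hr1 : 1 ≤ h (r + 1) := Nat.one_le_iff_ne_zero.2 hz
      have hr : 1 ≤ h r := hr1.trans (hmono r)
      rcases ih with ih | ⟨ih1, ih2⟩
      · omega
      obtain ⟨x, hx1, hx⟩ := exists_bet (c := μ + 1 + s) (by omega) (h := (h r : ℝ))
        (by exact_mod_cast hr)
      have hxR : x ≤ R := by
        refine le_of_bet_le (c := μ + 1 + s) (by omega) (by linarith) ?_
        rw [hx, ← h0]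
        exact_mod_cast hle0 r
      have hYx := le_Yf μ s hx1
      have hZpos : 0 < Zf μ s x := by
        have h1 := bet_Zf μ s x
        have h2 := bet_pos (μ + 1 + s) (x := x) (by linarith)
        have h3 := bet_pos μ (x := x) (by linarith)
        rw [h1] at h2
        exact (pos_iff_pos_of_mul_pos h2).1 h3
      have h5 : bet (μ + 1) (Yf μ s x) ≤ κ * h r := by
        rw [hY, ← hx, bet_Zf]
        calc bet μ (Yf μ s x) * Zf μ s x ≤ κ * bet μ x * Zf μ s x :=
              mul_le_mul_of_nonneg_right (hκx x hx1 hxR) hZpos.le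
          _ = _ := by ring
      have h6 : (1 : ℝ) ≤ κ * h r := by
        have h60 := bet_mono (μ + 1) (x := 1) (y := Yf μ s x) (by norm_num) (hx1.trans hYx)
        rw [bet_one] at h60
        exact h60.trans h5
      obtain ⟨y, hy1, hy⟩ := exists_bet (c := μ + 1) (by omega) h6
      have hYy : Yf μ s x ≤ y := by
        refine le_of_bet_le (c := μ + 1) (by omega) (by linarith) ?_
        rw [hy]
        exact h5
      have hyr : y ≤ Yf μ s R - r := by
        refine le_of_bet_le (c := μ + 1) (by omega) (by linarith) ?_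
        rw [hy]
        exact ih2
      have h7 := hstep r x hx1 hx.le
      have h8 : bet μ y ≤ κ * bet μ x := by
        have e1 : bet μ y * (y + μ) = κ * bet μ x * (Yf μ s x + μ) := by
          have h9 := bet_succ μ y
          rw [hy, ← hx, bet_Zf] at h9
          have h10 : ((μ : ℝ) + 1) ≠ 0 := by positivity
          have h11 : κ * (bet μ x * Zf μ s x) * (μ + 1) = bet μ y * (y + μ) := by
            rw [h9]
            field_simp
          rw [← h11]
          unfold Yf
          ring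
        have hyμ : 0 < y + μ := by positivity
        have hk0 : 0 ≤ κ * bet μ x := mul_nonneg (by linarith) (bet_nonneg μ (by linarith))
        have h12 : bet μ y * (y + μ) ≤ κ * bet μ x * (y + μ) := by
          rw [e1]
          exact mul_le_mul_of_nonneg_left (by linarith) hk0
        exact le_of_mul_le_mul_right h12 hyμ
      have h13 := bet_pascal μ y
      have h14 : κ * h (r + 1) ≤ bet (μ + 1) (y - 1) := by
        have h15 : κ * ((h (r + 1) : ℝ) + bet μ x) ≤ κ * h r :=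
          mul_le_mul_of_nonneg_left h7 (by linarith)
        rw [hy] at h13
        nlinarith
      have h16 : (1 : ℝ) ≤ κ * h (r + 1) := by
        have h17 : (1 : ℝ) ≤ h (r + 1) := by exact_mod_cast hr1
        nlinarith
      have h18 : 1 ≤ y - 1 := one_le_of_bet (c := μ + 1) (by omega) (by linarith)
        (h16.trans h14)
      have h19 : y - 1 ≤ Yf μ s R - ((r + 1 : ℕ) : ℝ) := by
        push_cast
        linarith
      exact ⟨h18.trans h19, h14.trans (bet_mono _ (by linarith) h19)⟩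
  rcases main r with h1 | ⟨h1, h2⟩
  · exact Or.inl h1
  · right
    refine ⟨h1, ?_⟩
    rw [← hκR]
    have h3 : 0 ≤ bet (μ + 1 + s) R := bet_nonneg _ (by linarith)
    calc κ * bet (μ + 1 + s) R * h r = bet (μ + 1 + s) R * (κ * h r) := by ring
      _ ≤ _ := mul_le_mul_of_nonneg_left h2 h3

end Pool.Agent.Helper65.HFL
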