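import Mathlib
import Pool.Agent.Helper65.HFL.Mac
import Pool.Agent.Helper65.HFL.Step

/-!
The growth inequality applied to the number of forms with prescribed multiplicities.
-/

namespace Pool.Agent.Helper65.HFL

open MvPolynomial Pool.Agent.Helper45 Pool.Agent.Helper65.HF

theorem mac_iter (N c : ℕ) : ∀ (j : ℕ) (St : List ℕ → Prop), UpN (N + 1) (c + j) St →
    ∀ x : ℝ, 1 ≤ x → bet (c + j) x ≤ (num (srt (N + 1) (c + j)) St : ℝ) →
    bet c x ≤ (num (srt (N + 1) c) (fun l => St (l ++ List.replicate j N)) : ℝ) := by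
  intro j
  induction j with
  | zero =>
    intro St _ x _ h
    simpa using h
  | succ j ih =>
    intro St hUp x hx h
    have h1 := mac (N + 1) (c + j) St hUp x hx h
    rw [Nat.add_sub_cancel] at h1
    have h2 := ih (fun l => St (l ++ [N])) (upN_append hUp) x hx h1
    have h3 : (fun l => St (l ++ List.replicate j N ++ [N])) =
        fun l => St (l ++ List.replicate (j + 1) N) := by
      funext l
      rw [List.append_assoc, List.replicate_succ']
    rw [← h3]
    exact h2

theorem num_ends_gen (j N c : ℕ) (St : List ℕ → Prop) :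
    num (srt (N + 1) (c + j)) (fun l => St l ∧ Ends j N l) =
      num (srt (N + 1) c) (fun l => St (l ++ List.replicate j N)) := by
  classical
  have h1 : (srt (N + 1) (c + j)).filter (fun l => St l ∧ Ends j N l) =
      ((srt (N + 1) c).filter (fun l => St (l ++ List.replicate j N))).image
        (fun l => l ++ List.replicate j N) := by
    ext l
    rw [Finset.mem_filter, Finset.mem_image]
    constructor
    · rintro ⟨hl, hS, a, rfl⟩
      refine ⟨a, Finset.mem_filter.2 ⟨?_, hS⟩, rfl⟩
      rw [mem_srt] at hl ⊢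
      obtain ⟨h2, h3, h4⟩ := hl
      rw [List.length_append, List.length_replicate] at h2
      exact ⟨by omega, (List.pairwise_append.1 h3).1, fun x hx => h4 x (List.mem_append_left _ hx)⟩
    · rintro ⟨a, ha, rfl⟩
      rw [Finset.mem_filter] at ha
      refine ⟨?_, ha.2, a, rfl⟩
      obtain ⟨ha, -⟩ := ha
      rw [mem_srt] at ha ⊢
      obtain ⟨h2, h3, h4⟩ := ha
      refine ⟨by rw [List.length_append, List.length_replicate]; omega,
        Pool.Agent.Helper38.HF.TRA.srt_append_replicate h3 fun x hx => Nat.lt_succ_iff.1 (h4 x hx),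
        fun x hx => ?_⟩
      rcases List.mem_append.1 hx with hx | hx
      · exact h4 x hx
      · rw [List.eq_of_mem_replicate hx]
        exact Nat.lt_succ_self N
  have h2 : num (srt (N + 1) (c + j)) (fun l => St l ∧ Ends j N l) =
      ((srt (N + 1) (c + j)).filter (fun l => St l ∧ Ends j N l)).card := by
    unfold num
    congr!
  have h3 : num (srt (N + 1) c) (fun l => St (l ++ List.replicate j N)) =
      ((srt (N + 1) c).filter (fun l => St (l ++ List.replicate j N))).card := by
    unfold num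
    congr 1
  rw [h2, h3, h1, Finset.card_image_of_injective _ (fun a b hab => List.append_cancel_right hab)]

/-- One more general point. -/
theorem H_step2 {j N r c : ℕ} (hj : 1 ≤ j) {x : ℝ} (hx : 1 ≤ x)
    (h : bet (c + j) x ≤ (H ℂ j (N + 1) r (c + j) : ℝ)) :
    (H ℂ j (N + 1) (r + 1) (c + j) : ℝ) + bet c x ≤ (H ℂ j (N + 1) r (c + j) : ℝ) := by
  obtain ⟨St, hUp, -, -, hcount, hnew⟩ := rALG ℂ j r hj
  have h1 := hnew N (c + j) (Nat.le_add_left j c)
  have h3 : num (srt (N + 1) (c + j)) (fun l => St l ∧ ¬ ∃ l', l = l' ++ List.replicate j N) +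
      num (srt (N + 1) (c + j)) (fun l => St l ∧ Ends j N l) = num (srt (N + 1) (c + j)) St := by
    classical
    rw [num_eq_sum, num_eq_sum, num_eq_sum, ← Finset.sum_add_distrib]
    refine Finset.sum_congr rfl fun l _ => ?_
    by_cases h4 : St l <;> by_cases h5 : Ends j N l <;> simp [h4, h5]
  have hU : UpN (N + 1) (c + j) St := fun l hl l' hl' hle h =>
    hUp l l' ((mem_srt.1 hl).2.1) ((mem_srt.1 hl').2.1) hle h
  have h4 := mac_iter N c j St hU x hx (by rw [hcount]; exact h)
  rw [← num_ends_gen] at h4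
  rw [hcount] at h3
  have h6 : (H ℂ j (N + 1) (r + 1) (c + j) : ℝ) +
      num (srt (N + 1) (c + j)) (fun l => St l ∧ Ends j N l) ≤ H ℂ j (N + 1) r (c + j) := by
    have : H ℂ j (N + 1) (r + 1) (c + j) +
      num (srt (N + 1) (c + j)) (fun l => St l ∧ Ends j N l) ≤ H ℂ j (N + 1) r (c + j) := by
      omega
    exact_mod_cast this
  linarith

theorem H_mono {j N r c : ℕ} (hj : 1 ≤ j) :
    H ℂ j (N + 1) (r + 1) (c + j) ≤ H ℂ j (N + 1) r (c + j) := by
  obtain ⟨St, hUp, -, -, hcount, hnew⟩ := rALG ℂ j r hj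
  have h1 := hnew N (c + j) (Nat.le_add_left j c)
  have h3 : num (srt (N + 1) (c + j)) (fun l => St l ∧ ¬ ∃ l', l = l' ++ List.replicate j N) +
      num (srt (N + 1) (c + j)) (fun l => St l ∧ Ends j N l) = num (srt (N + 1) (c + j)) St := by
    classical
    rw [num_eq_sum, num_eq_sum, num_eq_sum, ← Finset.sum_add_distrib]
    refine Finset.sum_congr rfl fun l _ => ?_
    by_cases h4 : St l <;> by_cases h5 : Ends j N l <;> simp [h4, h5]
  rw [hcount] at h3
  omega

/-- The bound for the number of forms of degree `μ + 1 + s` and multiplicity `μ + 1`. -/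
theorem H_dich (μ s N r : ℕ) : H ℂ (s + 1) (N + 1) r (μ + 1 + s) = 0 ∨
    (1 ≤ Yf μ s ((N + 1 : ℕ) : ℝ) - r ∧
      bet (μ + 1) (Yf μ s ((N + 1 : ℕ) : ℝ)) * (H ℂ (s + 1) (N + 1) r (μ + 1 + s) : ℝ) ≤
        bet (μ + 1 + s) ((N + 1 : ℕ) : ℝ) * bet (μ + 1) (Yf μ s ((N + 1 : ℕ) : ℝ) - r)) := by
  have e : μ + 1 + s = μ + (s + 1) := by omega
  refine compare μ s N (fun r => H ℂ (s + 1) (N + 1) r (μ + 1 + s)) ?_ ?_ ?_ r
  · have h1 := (rHUP ℂ (s + 1) (N + 1) 0 (μ + 1 + s) (by omega)).2.1
    rw [h1, bet_nat]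
    have e1 : N + 1 + (μ + 1 + s) - 1 = N + (μ + 1 + s) := by omega
    rw [e1]
  · intro r x hx h
    rw [e] at h ⊢
    exact H_step2 (by omega) hx h
  · intro r
    rw [e]
    exact H_mono (by omega)

end Pool.Agent.Helper65.HFL
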