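import Mathlib
import Pool.Agent.Helper65.HFL.Lin
import Pool.Agent.Helper65.HFL.Gen

/-!
The constant `1 - 1/e` is optimal.
-/

namespace Pool.Agent.Helper65.HFL

open MvPolynomial Pool.Agent.Helper45 Pool.Agent.Helper65.HF

theorem Gen.exists {n r : ℕ} {A : (Fin r → Fin (n + 1) → ℂ) → Prop} (h : Gen A) : ∃ P, A P := by
  obtain ⟨G, hG0, hG⟩ := h
  obtain ⟨x, hx⟩ : ∃ x : Fin r × Fin (n + 1) → ℂ, eval x G ≠ 0 := by
    by_contra h
    push Not at h
    exact hG0 (MvPolynomial.funext fun x => by rw [h x, map_zero])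
  exact ⟨fun i s => x (i, s), hG _ (by simpa using hx)⟩

theorem H_one (n m r : ℕ) (hm : 1 ≤ m) (hr : r ≤ n) :
    H ℂ 1 (n + 1) r m = (n + m - r).choose m := by
  have hd' : m - 1 + 1 = m := by omega
  have g1 : Gen (n := n) (r := r) _ := lin_small n m r hm (by omega)
  have g2 : Gen (n := n) (r := r) _ := (Pool.Agent.Helper22.HF.hHIL n m 1 r hm le_rfl).2
  obtain ⟨P, ⟨h1, h2⟩, h3, h4⟩ := (g1.and g2).exists
  rw [hd', h2, SS_eq r n m hr] at h4
  have e : n - r + m = n + m - r := by omega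
  rw [e] at h4
  exact_mod_cast h4.symm

/-- Forms of degree `m`: an upper bound for every family of points. -/
theorem lin_upper (n m r : ℕ) (hm : 1 ≤ m) (hr : r ≤ n) (P : Fin r → Fin (n + 1) → ℂ)
    (hP : ∀ i, P i ≠ 0) :
    hilb (fatIdeal P m) m ≤ ((n + m).choose n : ℝ) - ((n + m - r).choose m : ℝ) := by
  have hd' : m - 1 + 1 = m := by omega
  have h3 := (Pool.Agent.Helper22.HF.hHIL n m 1 r hm le_rfl).1 P hP
  rw [hd', H_one n m r hm hr] at h3
  have h4 : ((n + m - r).choose m : ℝ) ≤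
      (Module.finrank ℂ (homogeneousSubmodule (Fin (n + 1)) ℂ m ⊓
        (fatIdeal P m).restrictScalars ℂ : Submodule ℂ (MvPolynomial (Fin (n + 1)) ℂ)) : ℝ) := by
    exact_mod_cast h3
  unfold hilb
  rw [dim_fin]
  linarith

theorem ratio_step (n m r : ℕ) (hr : r ≤ n) (hnm : 1 ≤ n + m) : ∀ k ≤ r,
    (((n : ℝ) - r + 1) / ((n : ℝ) + m)) ^ k * ((n + m).choose m : ℝ) ≤
      ((n + m - k).choose m : ℝ) := by
  intro k
  induction k with
  | zero => intro _; simp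
  | succ k ih =>
    intro hk
    have h1 := ih (by omega)
    have hpos : (0 : ℝ) < (n : ℝ) + m := by exact_mod_cast (by omega : 0 < n + m)
    have hrn : (r : ℝ) ≤ n := by exact_mod_cast hr
    have hkr : (k : ℝ) + 1 ≤ r := by exact_mod_cast hk
    have hm0 : (0 : ℝ) ≤ m := by positivity
    have hk0 : (0 : ℝ) ≤ k := by positivity
    obtain ⟨a, ha⟩ : ∃ a, n + m - k = a + 1 := ⟨n + m - k - 1, by omega⟩
    have ha' : n + m - (k + 1) = a := by omega
    have h2 := Nat.choose_mul_succ_eq a m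
    have ham : a + 1 - m = n - k := by omega
    rw [ham] at h2
    have h3 : (a.choose m : ℝ) * ((a : ℝ) + 1) = ((a + 1).choose m : ℝ) * ((n : ℝ) - k) := by
      have h4 : ((n - k : ℕ) : ℝ) = (n : ℝ) - k := by
        rw [Nat.cast_sub (by omega)]
      rw [← h4]
      exact_mod_cast h2
    have haR : (a : ℝ) + 1 = (n : ℝ) + m - k := by
      have h5 : (a : ℝ) + 1 + k = (n : ℝ) + m := by
        exact_mod_cast (by omega : a + 1 + k = n + m)
      linarith
    have hapos : (0 : ℝ) < (a : ℝ) + 1 := by positivity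
    rw [ha']
    rw [ha] at h1
    have hC0 : (0 : ℝ) ≤ ((a + 1).choose m : ℝ) := by positivity
    have hq0 : 0 ≤ ((n : ℝ) - r + 1) / ((n : ℝ) + m) := by
      apply div_nonneg _ hpos.le
      linarith
    have hq : ((n : ℝ) - r + 1) / ((n : ℝ) + m) ≤ ((n : ℝ) - k) / ((a : ℝ) + 1) := by
      rw [div_le_div_iff₀ hpos hapos]
      have e1 : (n : ℝ) - r + 1 ≤ (n : ℝ) - k := by linarith
      have e2 : (a : ℝ) + 1 ≤ (n : ℝ) + m := by linarith
      have e3 : 0 ≤ (n : ℝ) - k := by linarith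
      nlinarith
    have h6 : (a.choose m : ℝ) = ((a + 1).choose m : ℝ) * (((n : ℝ) - k) / ((a : ℝ) + 1)) := by
      field_simp
      linarith
    rw [h6, pow_succ]
    calc (((n : ℝ) - r + 1) / ((n : ℝ) + m)) ^ k * (((n : ℝ) - r + 1) / ((n : ℝ) + m)) *
          ((n + m).choose m : ℝ) =
        ((((n : ℝ) - r + 1) / ((n : ℝ) + m)) ^ k * ((n + m).choose m : ℝ)) *
          (((n : ℝ) - r + 1) / ((n : ℝ) + m)) := by ring
      _ ≤ ((a + 1).choose m : ℝ) * (((n : ℝ) - k) / ((a : ℝ) + 1)) :=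
        mul_le_mul h1 hq hq0 hC0

theorem opt {ε : ℝ} (hε : 0 < ε) : ∃ n m r d : ℕ, 1 ≤ n ∧ 1 ≤ m ∧ 1 ≤ r ∧
    0 < min ((n + d).choose n : ℝ) ((r : ℝ) * ((n + m - 1).choose n : ℝ)) ∧
    ∀ P : Fin r → Fin (n + 1) → ℂ, (∀ i, P i ≠ 0) →
      hilb (fatIdeal P m) d ≤ (1 - Real.exp (-1) + ε) *
        min ((n + d).choose n : ℝ) ((r : ℝ) * ((n + m - 1).choose n : ℝ)) := by
  have hlim : Filter.Tendsto (fun r : ℕ => (1 + (-1 : ℝ) / r) ^ r * (1 + (-1 : ℝ) / r))
      Filter.atTop (nhds (Real.exp (-1) * (1 + 0))) := by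
    refine (Real.tendsto_one_add_div_pow_exp (-1)).mul ?_
    exact tendsto_const_nhds.add (tendsto_const_div_atTop_nhds_zero_nat (-1 : ℝ))
  rw [add_zero, mul_one] at hlim
  have hev := (hlim.eventually (lt_mem_nhds (a := Real.exp (-1) - ε) (by linarith))).and
    (Filter.eventually_ge_atTop 2)
  obtain ⟨r, hr1, hr2⟩ := hev.exists
  obtain ⟨s, hs⟩ : ∃ s, r = s + 1 := ⟨r - 1, by omega⟩
  obtain ⟨m, hmr⟩ : ∃ m, m = r ^ 2 := ⟨_, rfl⟩
  obtain ⟨n, hnr⟩ : ∃ n, n = s * r ^ 2 := ⟨_, rfl⟩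
  have hrR : (2 : ℝ) ≤ r := by exact_mod_cast hr2
  have hsR : (r : ℝ) = s + 1 := by rw [hs]; push_cast; ring
  have hm1 : 1 ≤ m := by rw [hmr]; exact Nat.one_le_pow _ _ (by omega)
  have hnr' : r ≤ n := by
    rw [hnr]
    have : r ≤ r ^ 2 := by nlinarith
    have h1 : 1 ≤ s := by omega
    calc r ≤ r ^ 2 := this
      _ = 1 * r ^ 2 := by ring
      _ ≤ s * r ^ 2 := Nat.mul_le_mul_right _ h1
  have hn1 : 1 ≤ n := by omega
  have hmR : (m : ℝ) = (r : ℝ) ^ 2 := by rw [hmr]; push_cast; ring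
  have hnR : (n : ℝ) = ((r : ℝ) - 1) * (r : ℝ) ^ 2 := by
    rw [hnr]; push_cast; rw [hsR]; ring
  have hC := Nat.choose_pos (Nat.le_add_right n m)
  have hCR : (0 : ℝ) < ((n + m).choose n : ℝ) := by exact_mod_cast hC
  -- the two numbers agree
  have hB : (r : ℝ) * ((n + m - 1).choose n : ℝ) = ((n + m).choose n : ℝ) := by
    have h1 := Nat.choose_mul_succ_eq (n + m - 1) n
    have e1 : n + m - 1 + 1 = n + m := by omega
    rw [e1] at h1
    have e2 : n + m - n = m := by omega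
    rw [e2] at h1
    have h2 : ((n + m - 1).choose n : ℝ) * ((n : ℝ) + m) = ((n + m).choose n : ℝ) * m := by
      exact_mod_cast h1
    have h3 : (n : ℝ) + m = (r : ℝ) ^ 3 := by rw [hnR, hmR]; ring
    rw [h3, hmR] at h2
    have hr0 : (0 : ℝ) < (r : ℝ) ^ 2 := by positivity
    have h4 : ((r : ℝ) * ((n + m - 1).choose n : ℝ)) * (r : ℝ) ^ 2 =
        ((n + m).choose n : ℝ) * (r : ℝ) ^ 2 := by
      rw [← h2]; ring
    exact mul_right_cancel₀ hr0.ne' h4
  refine ⟨n, m, r, m, hn1, hm1, by omega, ?_, fun P hP => ?_⟩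
  · rw [hB, min_self]
    exact hCR
  rw [hB, min_self]
  have h5 := lin_upper n m r hm1 hnr' P hP
  have h6 := ratio_step n m r hnr' (by omega) r le_rfl
  have hr0 : (0 : ℝ) < r := by linarith
  have hrne : (r : ℝ) ≠ 0 := hr0.ne'
  have h7 : ((n : ℝ) - r + 1) / ((n : ℝ) + m) = (1 + (-1 : ℝ) / r) * (1 - 1 / (r : ℝ) ^ 2) := by
    have h70 : (n : ℝ) + m = (r : ℝ) ^ 3 := by rw [hnR, hmR]; ring
    rw [h70, hnR]
    field_simp
    ring
  have h8 : (1 + (-1 : ℝ) / r) ≤ (1 - 1 / (r : ℝ) ^ 2) ^ r := by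
    have h9 := one_add_mul_le_pow (a := -(1 / (r : ℝ) ^ 2)) (by
      have : 1 / (r : ℝ) ^ 2 ≤ 1 := by
        rw [div_le_one (by positivity)]
        nlinarith
      linarith) r
    have h10 : 1 + (r : ℝ) * -(1 / (r : ℝ) ^ 2) = 1 + (-1 : ℝ) / r := by
      field_simp
    rw [h10] at h9
    simpa [sub_eq_add_neg] using h9
  have h11 : 0 ≤ (1 + (-1 : ℝ) / r) := by
    have : (1 : ℝ) / r ≤ 1 := by
      rw [div_le_one hr0]
      linarith
    have h12 : (-1 : ℝ) / r = -(1 / r) := by ring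
    rw [h12]
    linarith
  have h12 : (1 + (-1 : ℝ) / r) ^ r * (1 + (-1 : ℝ) / r) ≤
      (((n : ℝ) - r + 1) / ((n : ℝ) + m)) ^ r := by
    rw [h7, mul_pow]
    exact mul_le_mul_of_nonneg_left h8 (pow_nonneg h11 r)
  have h13 : ((n + m).choose m : ℝ) = ((n + m).choose n : ℝ) := by
    rw [Nat.choose_symm_add]
  rw [h13] at h6
  have h14 : (Real.exp (-1) - ε) * ((n + m).choose n : ℝ) ≤ ((n + m - r).choose m : ℝ) :=
    (mul_le_mul_of_nonneg_right (hr1.le.trans h12) hCR.le).trans h6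
  linarith

end Pool.Agent.Helper65.HFL
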