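import Mathlib
import Pool.Agent.Helper65.HFL.Beta

/-!
The best constant: numerical inequalities.
-/

namespace Pool.Agent.Helper65.HFL

/-- The product `(1 - r/M) (1 - r/(M-1)) ... (1 - r/(M-m+1))`. -/
noncomputable def pf (r : ℝ) (m : ℕ) (M : ℝ) : ℝ := ∏ k ∈ Finset.range m, (1 - r / (M - k))

/-- The auxiliary product. -/
noncomputable def qf (r : ℝ) (k : ℕ) (M : ℝ) : ℝ :=
  ∏ l ∈ Finset.range k, (1 - (r - 1) / (M - (l + 1)))

theorem pf_succ (r : ℝ) (m : ℕ) (M : ℝ) : pf r (m + 1) M = pf r m M * (1 - r / (M - m)) := by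
  unfold pf
  rw [Finset.prod_range_succ]

theorem qf_succ (r : ℝ) (k : ℕ) (M : ℝ) :
    qf r (k + 1) M = qf r k M * (1 - (r - 1) / (M - (k + 1))) := by
  unfold qf
  rw [Finset.prod_range_succ]

theorem pf_div (r : ℝ) (k : ℕ) {M : ℝ} (hM : (k : ℝ) < M) :
    pf r k M / (M - k) = 1 / M * qf r k M := by
  induction k with
  | zero =>
    unfold pf qf
    simp
  | succ k ih =>
    push_cast at hM ⊢
    have h1 := ih (by linarith)
    rw [pf_succ, qf_succ, ← mul_assoc, ← h1]
    have h2 : M - k ≠ 0 := by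
      intro h
      linarith
    have h3 : M - (k + 1) ≠ 0 := by
      intro h
      linarith
    field_simp
    ring

theorem one_sub_pf (r : ℝ) (m : ℕ) {M : ℝ} (hM : (m : ℝ) - 1 < M) :
    1 - pf r m M = r / M * ∑ k ∈ Finset.range m, qf r k M := by
  induction m with
  | zero =>
    unfold pf
    simp
  | succ m ih =>
    push_cast at hM
    have h1 := ih (by linarith)
    have h2 := pf_div r m (M := M) (by linarith)
    rw [pf_succ, Finset.sum_range_succ, mul_add, ← h1]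
    have h3 : r / M * qf r m M = r * (pf r m M / (M - m)) := by
      rw [h2]
      ring
    rw [h3]
    ring

theorem qf_mono {r : ℝ} (hr : 1 ≤ r) (k : ℕ) {M M' : ℝ} (hM : k + r ≤ M) (hMM : M ≤ M') :
    qf r k M ≤ qf r k M' := by
  unfold qf
  refine Finset.prod_le_prod (fun l hl => ?_) fun l hl => ?_
  · rw [Finset.mem_range] at hl
    have hl' : (l : ℝ) + 1 ≤ k := by exact_mod_cast hl
    have h1 : (0 : ℝ) < M - (l + 1) := by linarith
    rw [sub_nonneg, div_le_one h1]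
    linarith
  · rw [Finset.mem_range] at hl
    have hl' : (l : ℝ) + 1 ≤ k := by exact_mod_cast hl
    have h1 : (0 : ℝ) < M - (l + 1) := by linarith
    have h2 : (r - 1) / (M' - (l + 1)) ≤ (r - 1) / (M - (l + 1)) := by
      apply div_le_div_of_nonneg_left (by linarith) h1
      linarith
    linarith

theorem pf_nonneg {r : ℝ} (hr1 : 1 ≤ r) (m : ℕ) {M : ℝ} (hM : m + r ≤ M + 1) :
    0 ≤ pf r m M := by
  unfold pf
  refine Finset.prod_nonneg fun k hk => ?_
  rw [Finset.mem_range] at hk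
  have hk' : (k : ℝ) + 1 ≤ m := by exact_mod_cast hk
  have h1 : 0 < M - k := by linarith
  rw [sub_nonneg, div_le_one h1]
  linarith

theorem pf_mono {r : ℝ} (hr : 1 ≤ r) (m : ℕ) {M M' : ℝ} (hM : m + r ≤ M + 1) (hMM : M ≤ M') :
    pf r m M ≤ pf r m M' := by
  unfold pf
  refine Finset.prod_le_prod (fun l hl => ?_) fun l hl => ?_
  · rw [Finset.mem_range] at hl
    have hl' : (l : ℝ) + 1 ≤ m := by exact_mod_cast hl
    have h1 : (0 : ℝ) < M - l := by linarith
    rw [sub_nonneg, div_le_one h1]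
    linarith
  · rw [Finset.mem_range] at hl
    have hl' : (l : ℝ) + 1 ≤ m := by exact_mod_cast hl
    have h1 : (0 : ℝ) < M - l := by linarith
    have h2 : r / (M' - l) ≤ r / (M - l) := by
      apply div_le_div_of_nonneg_left (by linarith) h1
      linarith
    linarith

/-- The best constant. -/
noncomputable def kap (m r : ℕ) : ℝ := 1 - ((r * m - r).choose m : ℝ) / ((r * m).choose m : ℝ)

theorem kap_eq {m r : ℕ} (hm : 1 ≤ m) (hr : 1 ≤ r) :
    kap m r = 1 - pf r m ((r * m : ℕ) : ℝ) := by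
  have hle : m ≤ r * m := Nat.le_mul_of_pos_left m hr
  have hle2 : m - 1 ≤ r * m - r := by
    obtain ⟨a, rfl⟩ : ∃ a, m = a + 1 := ⟨m - 1, by omega⟩
    have : r * (a + 1) - r = r * a := by
      rw [Nat.mul_succ, Nat.add_sub_cancel]
    rw [this]
    simpa using Nat.le_mul_of_pos_left a hr
  have hle3 : r ≤ r * m := Nat.le_mul_of_pos_right r hm
  unfold kap pf
  congr 1
  have h1 : ((r * m).choose m : ℝ) * (m.factorial : ℝ) =
      ∏ k ∈ Finset.range m, (((r * m : ℕ) : ℝ) - k) := by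
    have e1 := Nat.descFactorial_eq_factorial_mul_choose (r * m) m
    rw [Nat.descFactorial_eq_prod_range] at e1
    have e2 : ((∏ i ∈ Finset.range m, (r * m - i) : ℕ) : ℝ) =
        (m.factorial : ℝ) * ((r * m).choose m : ℝ) := by exact_mod_cast e1
    rw [Nat.cast_prod] at e2
    rw [mul_comm, ← e2]
    refine Finset.prod_congr rfl fun k hk => ?_
    rw [Finset.mem_range] at hk
    rw [Nat.cast_sub (by omega)]
  have h2 : ((r * m - r).choose m : ℝ) * (m.factorial : ℝ) =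
      ∏ k ∈ Finset.range m, (((r * m : ℕ) : ℝ) - k - r) := by
    have e1 := Nat.descFactorial_eq_factorial_mul_choose (r * m - r) m
    rw [Nat.descFactorial_eq_prod_range] at e1
    have e2 : ((∏ i ∈ Finset.range m, (r * m - r - i) : ℕ) : ℝ) =
        (m.factorial : ℝ) * ((r * m - r).choose m : ℝ) := by exact_mod_cast e1
    rw [Nat.cast_prod] at e2
    rw [mul_comm, ← e2]
    refine Finset.prod_congr rfl fun k hk => ?_
    rw [Finset.mem_range] at hk
    rw [Nat.cast_sub (by omega), Nat.cast_sub hle3]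
    ring
  have h3 : (∏ k ∈ Finset.range m, (1 - (r : ℝ) / (((r * m : ℕ) : ℝ) - k))) *
      ∏ k ∈ Finset.range m, (((r * m : ℕ) : ℝ) - k) =
      ∏ k ∈ Finset.range m, (((r * m : ℕ) : ℝ) - k - r) := by
    rw [← Finset.prod_mul_distrib]
    refine Finset.prod_congr rfl fun k hk => ?_
    rw [Finset.mem_range] at hk
    have h4 : ((r * m : ℕ) : ℝ) - k ≠ 0 := by
      have h5 : (k : ℝ) < ((r * m : ℕ) : ℝ) := by exact_mod_cast lt_of_lt_of_le hk hle
      intro h
      linarith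
    field_simp
  have hf : (0 : ℝ) < (m.factorial : ℝ) := by exact_mod_cast Nat.factorial_pos m
  have hc : (0 : ℝ) < ((r * m).choose m : ℝ) := by exact_mod_cast Nat.choose_pos hle
  rw [div_eq_iff hc.ne']
  rw [← h1, ← h2] at h3
  have h6 : ((∏ k ∈ Finset.range m, (1 - (r : ℝ) / (((r * m : ℕ) : ℝ) - k))) *
      ((r * m).choose m : ℝ)) * (m.factorial : ℝ) =
      ((r * m - r).choose m : ℝ) * (m.factorial : ℝ) := by
    rw [← h3]
    ring
  exact (mul_right_cancel₀ hf.ne' h6).symm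

/-- The numerical inequality. -/
theorem kap_ineq {m r : ℕ} (hm : 1 ≤ m) (hr : 1 ≤ r) {M : ℝ} (hM : (m : ℝ) + r ≤ M + 1) :
    kap m r * min 1 ((r : ℝ) * m / M) ≤ 1 - pf r m M := by
  have hmR : (1 : ℝ) ≤ m := by exact_mod_cast hm
  have hrR : (1 : ℝ) ≤ r := by exact_mod_cast hr
  have hM0 : 0 < M := by linarith
  have hrm : (m : ℝ) + r ≤ ((r * m : ℕ) : ℝ) + 1 := by
    push_cast
    nlinarith
  have hrm0 : (0 : ℝ) < ((r * m : ℕ) : ℝ) := by linarith
  have e : (((r * m : ℕ) : ℝ)) = r * m := by push_cast; ring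
  rw [kap_eq hm hr]
  rcases le_total M ((r * m : ℕ) : ℝ) with h | h
  · have h1 := pf_mono hrR m hM h
    have h2 : 1 ≤ (r : ℝ) * m / M := by
      rw [le_div_iff₀ hM0, one_mul, ← e]
      exact h
    rw [min_eq_left h2, mul_one]
    linarith
  · have h2 : (r : ℝ) * m / M ≤ 1 := by
      rw [div_le_one hM0, ← e]
      exact h
    rw [min_eq_right h2, one_sub_pf _ _ (by linarith),
      one_sub_pf _ _ (by linarith)]
    have h3 : ∑ k ∈ Finset.range m, qf r k ((r * m : ℕ) : ℝ) ≤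
        ∑ k ∈ Finset.range m, qf r k M := by
      refine Finset.sum_le_sum fun k hk => ?_
      rw [Finset.mem_range] at hk
      have hk' : (k : ℝ) + 1 ≤ m := by exact_mod_cast hk
      exact qf_mono hrR k (by linarith) h
    have h4 : (r : ℝ) / ((r * m : ℕ) : ℝ) * (∑ k ∈ Finset.range m, qf r k ((r * m : ℕ) : ℝ)) *
        ((r : ℝ) * m / M) = (r : ℝ) / M * ∑ k ∈ Finset.range m, qf r k ((r * m : ℕ) : ℝ) := by
      rw [e]
      have h5 : (r : ℝ) ≠ 0 := by linarith
      have h6 : (m : ℝ) ≠ 0 := by linarith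
      field_simp
    rw [h4]
    exact mul_le_mul_of_nonneg_left h3 (by positivity)

theorem pf_le_pow {r : ℝ} (hr : 1 ≤ r) (m : ℕ) {M : ℝ} (hM : m + r ≤ M + 1) :
    pf r m M ≤ (1 - r / M) ^ m := by
  have e : (1 - r / M) ^ m = ∏ _k ∈ Finset.range m, (1 - r / M) := by
    rw [Finset.prod_const, Finset.card_range]
  rw [e]
  unfold pf
  refine Finset.prod_le_prod (fun l hl => ?_) fun l hl => ?_
  · rw [Finset.mem_range] at hl
    have hl' : (l : ℝ) + 1 ≤ m := by exact_mod_cast hl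
    have h1 : (0 : ℝ) < M - l := by linarith
    rw [sub_nonneg, div_le_one h1]
    linarith
  · rw [Finset.mem_range] at hl
    have hl' : (l : ℝ) + 1 ≤ m := by exact_mod_cast hl
    have hl0 : (0 : ℝ) ≤ l := by positivity
    have h1 : (0 : ℝ) < M - l := by linarith
    have h2 : r / M ≤ r / (M - l) := by
      apply div_le_div_of_nonneg_left (by linarith) h1
      linarith
    linarith

theorem kap_ge {m r : ℕ} (hm : 1 ≤ m) (hr : 1 ≤ r) : 1 - (1 - 1 / (m : ℝ)) ^ m ≤ kap m r := by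
  have hmR : (1 : ℝ) ≤ m := by exact_mod_cast hm
  have hrR : (1 : ℝ) ≤ r := by exact_mod_cast hr
  have hrm : (m : ℝ) + r ≤ ((r * m : ℕ) : ℝ) + 1 := by
    push_cast
    nlinarith
  have h1 := pf_le_pow hrR m hrm
  rw [kap_eq hm hr]
  have h2 : (r : ℝ) / ((r * m : ℕ) : ℝ) = 1 / (m : ℝ) := by
    push_cast
    have h5 : (r : ℝ) ≠ 0 := by linarith
    have h6 : (m : ℝ) ≠ 0 := by linarith
    field_simp
  rw [h2] at h1
  linarith

theorem pow_le_exp {m : ℕ} (hm : 1 ≤ m) : (1 - 1 / (m : ℝ)) ^ m ≤ Real.exp (-1) := by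
  have hmR : (1 : ℝ) ≤ m := by exact_mod_cast hm
  have h1 : 1 - 1 / (m : ℝ) ≤ Real.exp (-(1 / m)) := Real.one_sub_le_exp_neg _
  have h2 : 0 ≤ 1 - 1 / (m : ℝ) := by
    rw [sub_nonneg, div_le_one (by linarith)]
    exact hmR
  calc (1 - 1 / (m : ℝ)) ^ m ≤ (Real.exp (-(1 / m))) ^ m := pow_le_pow_left₀ h2 h1 m
    _ = Real.exp (-1) := by
      rw [← Real.exp_nat_mul]
      congr 1
      have h6 : (m : ℝ) ≠ 0 := by linarith
      field_simp

theorem kap_le_one (m r : ℕ) : kap m r ≤ 1 := by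
  unfold kap
  have : (0 : ℝ) ≤ ((r * m - r).choose m : ℝ) / ((r * m).choose m : ℝ) := by positivity
  linarith

theorem kap_exp {m r : ℕ} (hm : 1 ≤ m) (hr : 1 ≤ r) : 1 - Real.exp (-1) ≤ kap m r := by
  have h1 := kap_ge hm hr
  have h2 := pow_le_exp hm
  linarith

theorem kap_nonneg {m r : ℕ} (hm : 1 ≤ m) (hr : 1 ≤ r) : 0 ≤ kap m r := by
  have h1 := kap_exp hm hr
  have h2 : Real.exp (-1) ≤ 1 := by
    rw [Real.exp_le_one_iff]; norm_num
  linarith

/-- The ratio of two values of `bet`. -/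
theorem bet_pf (m : ℕ) (r : ℝ) {Y : ℝ} (hY : 0 < Y) :
    bet m (Y - r) = bet m Y * pf r m (Y + m - 1) := by
  unfold bet pf
  rw [← Finset.prod_range_reflect (fun k => 1 - r / (Y + m - 1 - (k : ℕ))) m,
    ← Finset.prod_mul_distrib]
  refine Finset.prod_congr rfl fun i hi => ?_
  rw [Finset.mem_range] at hi
  have h1 : ((m - 1 - i : ℕ) : ℝ) = (m : ℝ) - 1 - i := by
    rw [Nat.cast_sub (by omega), Nat.cast_sub (by omega), Nat.cast_one]
  rw [h1]
  have h2 : Y + m - 1 - ((m : ℝ) - 1 - i) = Y + i := by ring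
  rw [h2]
  have hi0 : (0 : ℝ) ≤ i := by positivity
  have h3 : Y + i ≠ 0 := by
    intro h
    linarith
  field_simp
  ring

end Pool.Agent.Helper65.HFL
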