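import Mathlib
import Pool.Agent.Helper65.HFL.Fkg
import Pool.Agent.Helper65.HFL.Low
import Pool.Agent.Helper65.HFL.Lin
import Pool.Agent.Helper65.HFL.Gen
import Pool.Agent.Helper98.UAH.Final2

/-!
General fat points impose at least the proportion `1 - 1/e` of the expected number of conditions.
-/

namespace Pool.Agent.Helper65.HFL

open MvPolynomial Pool.Agent.Helper45 Pool.Agent.Helper65.HF

/-- High degrees. -/
theorem uni_high (n m r : ℕ) (hn : 1 ≤ n) (hm : 1 ≤ m) :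
    ∃ D : ℕ, Gen (n := n) (r := r) fun P => (∀ i, P i ≠ 0) ∧ ∀ d : ℕ, D ≤ d →
      hilb (fatIdeal P m) d =
        min ((n + d).choose n : ℝ) ((r : ℝ) * ((n + m - 1).choose n : ℝ)) := by
  obtain ⟨D0, hD0⟩ : ∃ D0 : ℝ, D0 = (2 * (n : ℝ) * m) ^ (3 + ∑ j ∈ Finset.range (n - 1),
    1 / ((j : ℝ) + 1)) := ⟨_, rfl⟩
  obtain ⟨W0, hW0⟩ : ∃ W0 : ℝ, W0 = (2 * (n : ℝ) * m) ^ (((n : ℝ) - 1) *
    (2 + ∑ j ∈ Finset.range (n - 1), 1 / ((j : ℝ) + 1))) := ⟨_, rfl⟩
  have hD : (2 * (n : ℝ) * m) ^ (3 + ∑ j ∈ Finset.range (n - 1), 1 / ((j : ℝ) + 1)) ≤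
    (⌈D0⌉₊ : ℝ) := hD0 ▸ Nat.le_ceil _
  have hW : (2 * (n : ℝ) * m) ^ (((n : ℝ) - 1) *
    (2 + ∑ j ∈ Finset.range (n - 1), 1 / ((j : ℝ) + 1))) ≤ (⌈W0⌉₊ : ℝ) :=
    hW0 ▸ Nat.le_ceil _
  obtain ⟨h1, h2⟩ := Pool.Agent.Helper46.EAH.ap_all ℂ n m hn hm ⌈W0⌉₊ hW
  obtain ⟨G, hG0, hG⟩ := Pool.Agent.Helper98.UAH.uniform2 (F := ℂ) n m r hn hm (fun _ => m)
    (fun _ => hm) (fun _ => le_rfl) ⌈D0⌉₊ ⌈W0⌉₊
    (Pool.Agent.Helper46.EAH.ex_all ℂ n m hn hm _ hD) h1 h2
  refine ⟨⌈D0⌉₊, G, hG0, fun P hP => ?_⟩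
  obtain ⟨hP0, hP1⟩ := hG P hP
  refine ⟨fun i h0 => hP0 i (by rw [h0]; rfl), fun d hd => ?_⟩
  have hsum : ∑ i : Fin r, Pool.Agent.Helper46.EAH.N n ((fun _ => m) i) =
      r * (n + m - 1).choose n := by
    have : ∀ i : Fin r, Pool.Agent.Helper46.EAH.N n ((fun _ => m) i) = (n + m - 1).choose n := by
      intro i
      unfold Pool.Agent.Helper46.EAH.N
      rw [if_neg (by simp only; omega)]
    rw [Finset.sum_congr rfl fun i _ => this i, Finset.sum_const, Finset.card_univ,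
      Fintype.card_fin, smul_eq_mul]
  have hT : Pool.Agent.Helper46.EAH.N n (d + 1) = (n + d).choose n :=
    Pool.Agent.Helper46.EAH.N_succ n d
  have key := hP1 d (Or.inl hd)
  rw [hsum, hT] at key
  have e : hilb (fatIdeal P m) d
      = ((Pool.Agent.Helper46.EAH.hilbert (Pool.Agent.Helper46.EAH.fatI P
        (fun _ => m)) d : ℤ) : ℝ) := by
    unfold hilb Pool.Agent.Helper46.EAH.hilbert
    push_cast
    rfl
  rw [e, key]
  push_cast
  rfl

/-- The numerical inequality. -/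
theorem num_ineq {p : ℝ} (hp0 : 0 ≤ p) (hp1 : p ≤ 1) (r : ℕ) :
    (1 - Real.exp (-1)) * min 1 (r * p) ≤ 1 - (1 - p) ^ r := by
  have h1 : (1 - p) ^ r ≤ Real.exp (-(r * p)) := by
    calc (1 - p) ^ r ≤ (Real.exp (-p)) ^ r :=
          pow_le_pow_left₀ (by linarith) (Real.one_sub_le_exp_neg p) r
      _ = Real.exp (-(r * p)) := by rw [← Real.exp_nat_mul]; congr 1; ring
  have h2 : Real.exp (-1) ≤ 1 := by
    rw [Real.exp_le_one_iff]; norm_num
  set x : ℝ := r * p with hx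
  have hx0 : 0 ≤ x := by positivity
  rcases le_total 1 x with h3 | h3
  · rw [min_eq_left h3]
    have h4 : Real.exp (-x) ≤ Real.exp (-1) := Real.exp_le_exp.2 (by linarith)
    linarith
  · rw [min_eq_right h3]
    have h4 := convexOn_exp.2 (Set.mem_univ (0 : ℝ)) (Set.mem_univ (-1 : ℝ))
      (by linarith : (0 : ℝ) ≤ 1 - x) hx0 (by ring)
    simp only [smul_eq_mul, Real.exp_zero, mul_one, mul_zero, zero_add, mul_neg] at h4
    nlinarith

/-- The bound in one degree. -/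
theorem one_degree (n m r d : ℕ) (hm : 1 ≤ m) (hd : m ≤ d) :
    Gen (n := n) (r := r) fun P =>
      ((n + d).choose n : ℝ) - hilb (fatIdeal P m) d ≤ ((n + d).choose n : ℝ) *
        (1 - ((n + m - 1).choose n : ℝ) / ((n + d).choose n : ℝ)) ^ r := by
  obtain ⟨G, hG0, hG⟩ := (rHIL n m (d + 1 - m) r hm (by omega)).2
  refine ⟨G, hG0, fun P hP => ?_⟩
  have h1 := (hG P hP).2
  have hd' : m - 1 + (d + 1 - m) = d := by omega
  rw [hd'] at h1
  have h2 := H_bound (N := n) (j := d + 1 - m) (c := d) (by omega) (by omega) r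
  have e1 : d - (d + 1 - m) = m - 1 := by omega
  rw [e1, ← Nat.choose_symm_add, ← Nat.choose_symm_add] at h2
  have e2 : n + (m - 1) = n + m - 1 := by omega
  rw [e2] at h2
  have h3 : (Module.finrank ℂ (homogeneousSubmodule (Fin (n + 1)) ℂ d ⊓
        (fatIdeal P m).restrictScalars ℂ : Submodule ℂ (MvPolynomial (Fin (n + 1)) ℂ)) : ℝ) =
        (H ℂ (d + 1 - m) (n + 1) r d : ℝ) := by exact_mod_cast h1
  change ((n + d).choose n : ℝ) - hilb (fatIdeal P m) d ≤ _
  unfold hilb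
  rw [dim_fin, h3]
  linarith

theorem choose_le_of (n m d : ℕ) (hm : 1 ≤ m) (hd : m ≤ d + 1) :
    ((n + m - 1).choose n : ℝ) ≤ ((n + d).choose n : ℝ) := by
  exact_mod_cast Nat.choose_le_choose n (by omega)

theorem choose_pos' (n d : ℕ) : (0 : ℝ) < ((n + d).choose n : ℝ) := by
  exact_mod_cast Nat.choose_pos (Nat.le_add_right n d)

/-- Consequence: the proportion `1 - 1/e`. -/
theorem conseq (n m r d : ℕ) (hm : 1 ≤ m) (hd : m ≤ d + 1) {x : ℝ}
    (h : ((n + d).choose n : ℝ) - x ≤ ((n + d).choose n : ℝ) *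
        (1 - ((n + m - 1).choose n : ℝ) / ((n + d).choose n : ℝ)) ^ r) :
    (1 - Real.exp (-1)) * min ((n + d).choose n : ℝ) ((r : ℝ) * ((n + m - 1).choose n : ℝ)) ≤
      x := by
  have hC := choose_pos' n d
  have hB := choose_le_of n m d hm hd
  set C : ℝ := ((n + d).choose n : ℝ) with hCdef
  set B : ℝ := ((n + m - 1).choose n : ℝ) with hBdef
  have hB0 : 0 ≤ B := by positivity
  have h1 := num_ineq (p := B / C) (by positivity) ((div_le_one hC).2 hB) r
  have h2 : min C (r * B) = C * min 1 (r * (B / C)) := by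
    rw [mul_min_of_nonneg _ _ hC.le, mul_one]
    congr 1
    field_simp
  rw [h2]
  calc (1 - Real.exp (-1)) * (C * min 1 (r * (B / C))) =
      C * ((1 - Real.exp (-1)) * min 1 (r * (B / C))) := by ring
    _ ≤ C * (1 - (1 - B / C) ^ r) := mul_le_mul_of_nonneg_left h1 hC.le
    _ ≤ x := by linarith

/-- Bernoulli. -/
theorem bern (n m r d : ℕ) (hm : 1 ≤ m) (hd : m ≤ d + 1) :
    ((n + d).choose n : ℝ) - min ((n + d).choose n : ℝ)
      ((r : ℝ) * ((n + m - 1).choose n : ℝ)) ≤ ((n + d).choose n : ℝ) *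
        (1 - ((n + m - 1).choose n : ℝ) / ((n + d).choose n : ℝ)) ^ r := by
  have hC := choose_pos' n d
  have hB := choose_le_of n m d hm hd
  set C : ℝ := ((n + d).choose n : ℝ) with hCdef
  set B : ℝ := ((n + m - 1).choose n : ℝ) with hBdef
  have hB0 : 0 ≤ B := by positivity
  have hp : B / C ≤ 1 := (div_le_one hC).2 hB
  have h0 : 0 ≤ (1 - B / C) ^ r := pow_nonneg (by linarith) r
  rcases le_total C (r * B) with h | h
  · rw [min_eq_left h, sub_self]
    positivity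
  · rw [min_eq_right h]
    have h1 := one_add_mul_le_pow (a := -(B / C)) (by linarith) r
    have h2 : C * (1 + r * -(B / C)) ≤ C * (1 + -(B / C)) ^ r :=
      mul_le_mul_of_nonneg_left h1 hC.le
    have h3 : C * (1 + r * -(B / C)) = C - r * B := by
      field_simp
      ring
    rw [h3] at h2
    simpa [sub_eq_add_neg] using h2

/-- The bounds in all degrees, for the same general points. -/
theorem universal (n m r : ℕ) (hn : 1 ≤ n) (hm : 1 ≤ m) :
    Gen (n := n) (r := r) fun P => (∀ i, P i ≠ 0) ∧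
      (∀ d, m ≤ d + 1 → ((n + d).choose n : ℝ) - hilb (fatIdeal P m) d ≤
        ((n + d).choose n : ℝ) *
        (1 - ((n + m - 1).choose n : ℝ) / ((n + d).choose n : ℝ)) ^ r) ∧
      ∀ d, (1 - Real.exp (-1)) *
        min ((n + d).choose n : ℝ) ((r : ℝ) * ((n + m - 1).choose n : ℝ)) ≤
        hilb (fatIdeal P m) d := by
  obtain ⟨D, hD⟩ := uni_high n m r hn hm
  have g1 : Gen (n := n) (r := r) fun P => ∀ d ∈ Finset.Ico m D,
      ((n + d).choose n : ℝ) - hilb (fatIdeal P m) d ≤ ((n + d).choose n : ℝ) *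
        (1 - ((n + m - 1).choose n : ℝ) / ((n + d).choose n : ℝ)) ^ r :=
    Gen.ball _ fun d hd => one_degree n m r d hm (Finset.mem_Ico.1 hd).1
  refine (hD.and g1).mono fun P hP => ?_
  obtain ⟨⟨h0, h1⟩, h2⟩ := hP
  have hnn : ∀ d, 0 ≤ hilb (fatIdeal P m) d := by
    intro d
    unfold hilb
    have h3 : Module.finrank ℂ (homogeneousSubmodule (Fin (n + 1)) ℂ d ⊓
        (fatIdeal P m).restrictScalars ℂ : Submodule ℂ (MvPolynomial (Fin (n + 1)) ℂ)) ≤
        Module.finrank ℂ (homogeneousSubmodule (Fin (n + 1)) ℂ d) :=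
      Submodule.finrank_mono inf_le_left
    have h4 : (Module.finrank ℂ (homogeneousSubmodule (Fin (n + 1)) ℂ d ⊓
        (fatIdeal P m).restrictScalars ℂ : Submodule ℂ (MvPolynomial (Fin (n + 1)) ℂ)) : ℝ) ≤
        (Module.finrank ℂ (homogeneousSubmodule (Fin (n + 1)) ℂ d) : ℝ) := by exact_mod_cast h3
    linarith
  have key : ∀ d, m ≤ d + 1 → ((n + d).choose n : ℝ) - hilb (fatIdeal P m) d ≤
        ((n + d).choose n : ℝ) *
        (1 - ((n + m - 1).choose n : ℝ) / ((n + d).choose n : ℝ)) ^ r := by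
    intro d hd
    by_cases hd1 : m ≤ d
    · by_cases hd2 : D ≤ d
      · rw [h1 d hd2]
        exact bern n m r d hm hd
      · exact h2 d (Finset.mem_Ico.2 ⟨hd1, by omega⟩)
    · have hdm : d < m := by omega
      have hB := choose_le_of n m d hm hd
      have hC := choose_pos' n d
      have h0' : 0 ≤ (1 - ((n + m - 1).choose n : ℝ) / ((n + d).choose n : ℝ)) ^ r :=
        pow_nonneg (by rw [sub_nonneg]; exact (div_le_one hC).2 hB) r
      rcases Nat.eq_zero_or_pos r with hr | hr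
      · have hpw : (1 - ((n + m - 1).choose n : ℝ) / ((n + d).choose n : ℝ)) ^ r = 1 := by
          rw [hr, pow_zero]
        rw [hpw, mul_one]
        have := hnn d
        linarith
      · rw [hilb_low hr P hdm, sub_self]
        positivity
  refine ⟨h0, key, fun d => ?_⟩
  by_cases hd : m ≤ d + 1
  · exact conseq n m r d hm hd (key d hd)
  · have hdm : d < m := by omega
    have hexp : Real.exp (-1) ≤ 1 := by
      rw [Real.exp_le_one_iff]; norm_num
    have hexp0 := Real.exp_pos (-1)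
    rcases Nat.eq_zero_or_pos r with hr | hr
    · have hr0 : (r : ℝ) = 0 := by rw [hr, Nat.cast_zero]
      rw [hr0, zero_mul]
      have h5 : min ((n + d).choose n : ℝ) (0 : ℝ) = 0 := min_eq_right (by positivity)
      rw [h5, mul_zero]
      exact hnn d
    · rw [hilb_low hr P hdm]
      have h5 : min ((n + d).choose n : ℝ) ((r : ℝ) * ((n + m - 1).choose n : ℝ)) ≤
        ((n + d).choose n : ℝ) := min_le_left _ _
      have h6 : 0 ≤ min ((n + d).choose n : ℝ) ((r : ℝ) * ((n + m - 1).choose n : ℝ)) :=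
        le_min (by positivity) (by positivity)
      nlinarith

end Pool.Agent.Helper65.HFL
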