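import Mathlib
import Pool.Agent.Helper65.HFL.Iter
import Pool.Agent.Helper65.HFL.Prod
import Pool.Agent.Helper65.HFL.Univ
import Pool.Agent.Helper65.HFL.Opt

/-!
The sharp bound for general fat points and the best constant for every multiplicity and every
number of points.
-/

namespace Pool.Agent.Helper65.HFL

open MvPolynomial Pool.Agent.Helper45 Pool.Agent.Helper65.HF

/-- The number `m C(n+d,n) / C(n+m-1,n)`. -/
noncomputable def Mf (n m d : ℕ) : ℝ :=
  (m : ℝ) * ((n + d).choose n : ℝ) / ((n + m - 1).choose n : ℝ)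

/-- The dichotomy for a value `h` of the Hilbert function. -/
def Dich (n m r d : ℕ) (h : ℝ) : Prop :=
  h = ((n + d).choose n : ℝ) ∨ ((m : ℝ) + r ≤ Mf n m d ∧
    ((n + d).choose n : ℝ) - h ≤ ((n + d).choose n : ℝ) * pf r m (Mf n m d))

theorem Yf_eq (n μ s : ℕ) : Yf μ s ((n + 1 : ℕ) : ℝ) = Mf n (μ + 1) (μ + 1 + s) - μ := by
  have h1 := bet_Zf μ s ((n + 1 : ℕ) : ℝ)
  rw [bet_nat, bet_nat, ← Nat.choose_symm_add, ← Nat.choose_symm_add] at h1
  unfold Yf Mf
  have h2 : n + (μ + 1) - 1 = n + μ := by omega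
  have h3 := choose_pos' n μ
  rw [h2, h1]
  push_cast
  field_simp

/-- The bound in one degree. -/
theorem one_degree2 (n m r d : ℕ) (hm : 1 ≤ m) (hd : m ≤ d) :
    Gen (n := n) (r := r) fun P => Dich n m r d (hilb (fatIdeal P m) d) := by
  obtain ⟨μ, rfl⟩ : ∃ μ, m = μ + 1 := ⟨m - 1, by omega⟩
  obtain ⟨s, rfl⟩ : ∃ s, d = μ + 1 + s := ⟨d - (μ + 1), by omega⟩
  obtain ⟨G, hG0, hG⟩ := (rHIL n (μ + 1) (s + 1) r hm (by omega)).2
  refine ⟨G, hG0, fun P hP => ?_⟩
  have h1 := (hG P hP).2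
  have hd' : μ + 1 - 1 + (s + 1) = μ + 1 + s := by omega
  rw [hd'] at h1
  have h3 : (Module.finrank ℂ (homogeneousSubmodule (Fin (n + 1)) ℂ (μ + 1 + s) ⊓
        (fatIdeal P (μ + 1)).restrictScalars ℂ : Submodule ℂ (MvPolynomial (Fin (n + 1)) ℂ)) : ℝ) =
        (H ℂ (s + 1) (n + 1) r (μ + 1 + s) : ℝ) := by exact_mod_cast h1
  have h4 : hilb (fatIdeal P (μ + 1)) (μ + 1 + s) = ((n + (μ + 1 + s)).choose n : ℝ) -
      (H ℂ (s + 1) (n + 1) r (μ + 1 + s) : ℝ) := by
    unfold hilb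
    rw [dim_fin, h3]
  change Dich n (μ + 1) r (μ + 1 + s) (hilb (fatIdeal P (μ + 1)) (μ + 1 + s))
  rw [h4]
  unfold Dich
  rcases H_dich μ s n r with h5 | ⟨h5, h6⟩
  · left
    rw [h5, Nat.cast_zero, sub_zero]
  · right
    rw [Yf_eq] at h5 h6
    rw [bet_nat, ← Nat.choose_symm_add] at h6
    have hY : 0 < Mf n (μ + 1) (μ + 1 + s) - μ := by
      have : (0 : ℝ) ≤ r := by positivity
      linarith
    have h7 := bet_pf (μ + 1) (r : ℝ) hY
    have h8 : Mf n (μ + 1) (μ + 1 + s) - μ + ((μ + 1 : ℕ) : ℝ) - 1 =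
        Mf n (μ + 1) (μ + 1 + s) := by
      push_cast
      ring
    rw [h8] at h7
    rw [h7] at h6
    refine ⟨by push_cast; linarith, ?_⟩
    have h9 := bet_pos (μ + 1) hY
    have h10 : bet (μ + 1) (Mf n (μ + 1) (μ + 1 + s) - μ) *
        (H ℂ (s + 1) (n + 1) r (μ + 1 + s) : ℝ) ≤
        bet (μ + 1) (Mf n (μ + 1) (μ + 1 + s) - μ) * (((n + (μ + 1 + s)).choose n : ℝ) *
          pf r (μ + 1) (Mf n (μ + 1) (μ + 1 + s))) := by
      refine h6.trans (le_of_eq ?_)
      ring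
    have h11 := le_of_mul_le_mul_left h10 h9
    linarith

theorem dich_high (n m r : ℕ) (hn : 1 ≤ n) (hm : 1 ≤ m) : ∃ D : ℕ, ∀ d, D ≤ d → m ≤ d →
    Dich n m r d (min ((n + d).choose n : ℝ) ((r : ℝ) * ((n + m - 1).choose n : ℝ))) := by
  obtain ⟨D, hD⟩ := uni_high n m r hn hm
  refine ⟨D, fun d hd hmd => ?_⟩
  obtain ⟨P, ⟨-, h1⟩, h2⟩ := (hD.and (one_degree2 n m r d hm hmd)).exists
  rw [h1 d hd] at h2
  exact h2

theorem hilb_nonneg {n : ℕ} (J : Ideal (MvPolynomial (Fin (n + 1)) ℂ)) (d : ℕ) :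
    0 ≤ hilb J d := by
  unfold hilb
  have h3 : Module.finrank ℂ (homogeneousSubmodule (Fin (n + 1)) ℂ d ⊓
      J.restrictScalars ℂ : Submodule ℂ (MvPolynomial (Fin (n + 1)) ℂ)) ≤
      Module.finrank ℂ (homogeneousSubmodule (Fin (n + 1)) ℂ d) :=
    Submodule.finrank_mono inf_le_left
  have h4 : (Module.finrank ℂ (homogeneousSubmodule (Fin (n + 1)) ℂ d ⊓
      J.restrictScalars ℂ : Submodule ℂ (MvPolynomial (Fin (n + 1)) ℂ)) : ℝ) ≤
      (Module.finrank ℂ (homogeneousSubmodule (Fin (n + 1)) ℂ d) : ℝ) := by exact_mod_cast h3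
  linarith

theorem hilb_le {n : ℕ} (J : Ideal (MvPolynomial (Fin (n + 1)) ℂ)) (d : ℕ) :
    hilb J d ≤ ((n + d).choose n : ℝ) := by
  unfold hilb
  rw [dim_fin]
  have : (0 : ℝ) ≤ (Module.finrank ℂ (homogeneousSubmodule (Fin (n + 1)) ℂ d ⊓
      J.restrictScalars ℂ : Submodule ℂ (MvPolynomial (Fin (n + 1)) ℂ)) : ℝ) := by positivity
  linarith

/-- From the dichotomy to the constant. -/
theorem dich_kap (n m r d : ℕ) (hm : 1 ≤ m) (hr : 1 ≤ r) {h : ℝ} (hd : Dich n m r d h) :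
    kap m r * min ((n + d).choose n : ℝ) ((r : ℝ) * ((n + m - 1).choose n : ℝ)) ≤ h := by
  have hC := choose_pos' n d
  have hB : (0 : ℝ) < ((n + m - 1).choose n : ℝ) := by
    have h1 := choose_pos' n (m - 1)
    have h2 : n + (m - 1) = n + m - 1 := by omega
    rwa [h2] at h1
  have hk0 := kap_nonneg hm hr
  have hk1 := kap_le_one m r
  rcases hd with h1 | ⟨h1, h2⟩
  · rw [h1]
    have h3 : min ((n + d).choose n : ℝ) ((r : ℝ) * ((n + m - 1).choose n : ℝ)) ≤
        ((n + d).choose n : ℝ) := min_le_left _ _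
    have h4 : 0 ≤ min ((n + d).choose n : ℝ) ((r : ℝ) * ((n + m - 1).choose n : ℝ)) :=
      le_min hC.le (by positivity)
    calc kap m r * min ((n + d).choose n : ℝ) ((r : ℝ) * ((n + m - 1).choose n : ℝ)) ≤
          1 * min ((n + d).choose n : ℝ) ((r : ℝ) * ((n + m - 1).choose n : ℝ)) :=
          mul_le_mul_of_nonneg_right hk1 h4
      _ = min ((n + d).choose n : ℝ) ((r : ℝ) * ((n + m - 1).choose n : ℝ)) := one_mul _
      _ ≤ _ := h3
  · have h3 := kap_ineq hm hr (M := Mf n m d) (by linarith)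
    have hmR : (1 : ℝ) ≤ m := by exact_mod_cast hm
    have h4 : (r : ℝ) * m / Mf n m d =
        (r : ℝ) * ((n + m - 1).choose n : ℝ) / ((n + d).choose n : ℝ) := by
      unfold Mf
      have h5 : (m : ℝ) ≠ 0 := by linarith
      field_simp
    have h6 : min ((n + d).choose n : ℝ) ((r : ℝ) * ((n + m - 1).choose n : ℝ)) =
        ((n + d).choose n : ℝ) * min 1 ((r : ℝ) * m / Mf n m d) := by
      rw [h4, mul_min_of_nonneg _ _ hC.le, mul_one]
      congr 1
      field_simp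
    rw [h6]
    calc kap m r * (((n + d).choose n : ℝ) * min 1 ((r : ℝ) * m / Mf n m d)) =
          ((n + d).choose n : ℝ) * (kap m r * min 1 ((r : ℝ) * m / Mf n m d)) := by ring
      _ ≤ ((n + d).choose n : ℝ) * (1 - pf r m (Mf n m d)) :=
          mul_le_mul_of_nonneg_left h3 hC.le
      _ ≤ h := by linarith

/-- The bounds in all degrees, for the same general points. -/
theorem sharp (n m r : ℕ) (hn : 1 ≤ n) (hm : 1 ≤ m) (hr : 1 ≤ r) :
    Gen (n := n) (r := r) fun P => (∀ i, P i ≠ 0) ∧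
      (∀ d, m ≤ d → Dich n m r d (hilb (fatIdeal P m) d)) ∧
      ∀ d, kap m r *
        min ((n + d).choose n : ℝ) ((r : ℝ) * ((n + m - 1).choose n : ℝ)) ≤
        hilb (fatIdeal P m) d := by
  obtain ⟨D1, hD1⟩ := uni_high n m r hn hm
  obtain ⟨D2, hD2⟩ := dich_high n m r hn hm
  have g1 : Gen (n := n) (r := r) fun P => ∀ d ∈ Finset.Ico m (max D1 D2),
      Dich n m r d (hilb (fatIdeal P m) d) :=
    Gen.ball _ fun d hd => one_degree2 n m r d hm (Finset.mem_Ico.1 hd).1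
  refine (hD1.and g1).mono fun P hP => ?_
  obtain ⟨⟨h0, h1⟩, h2⟩ := hP
  have key : ∀ d, m ≤ d → Dich n m r d (hilb (fatIdeal P m) d) := by
    intro d hd
    by_cases hd2 : max D1 D2 ≤ d
    · rw [h1 d ((le_max_left _ _).trans hd2)]
      exact hD2 d ((le_max_right _ _).trans hd2) hd
    · exact h2 d (Finset.mem_Ico.2 ⟨hd, by omega⟩)
  refine ⟨h0, key, fun d => ?_⟩
  by_cases hd : m ≤ d
  · exact dich_kap n m r d hm hr (key d hd)
  · refine dich_kap n m r d hm hr (Or.inl ?_)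
    exact hilb_low (by omega) P (by omega)

theorem kap_eq_one {m r : ℕ} (hm : 1 ≤ m) (hr : 1 ≤ r) (h : m = 1 ∨ r = 1) : kap m r = 1 := by
  unfold kap
  have h1 : (r * m - r).choose m = 0 := by
    apply Nat.choose_eq_zero_of_lt
    rcases h with rfl | rfl
    · omega
    · omega
  rw [h1, Nat.cast_zero, zero_div, sub_zero]

/-- The constant is attained. -/
theorem kap_opt (m r : ℕ) (hm : 1 ≤ m) (hr : 1 ≤ r) : ∃ n d : ℕ, 1 ≤ n ∧
    0 < min ((n + d).choose n : ℝ) ((r : ℝ) * ((n + m - 1).choose n : ℝ)) ∧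
    ∀ P : Fin r → Fin (n + 1) → ℂ, (∀ i, P i ≠ 0) →
      hilb (fatIdeal P m) d ≤ kap m r *
        min ((n + d).choose n : ℝ) ((r : ℝ) * ((n + m - 1).choose n : ℝ)) := by
  by_cases h : m = 1 ∨ r = 1
  · refine ⟨1, m - 1, le_rfl, ?_, fun P _ => ?_⟩
    · have hC := choose_pos' 1 (m - 1)
      have h2 : 1 + (m - 1) = 1 + m - 1 := by omega
      refine lt_min hC ?_
      rw [← h2]
      have hrR : (1 : ℝ) ≤ r := by exact_mod_cast hr
      exact mul_pos (by linarith) hC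
    · rw [kap_eq_one hm hr h, one_mul]
      have h2 : 1 + (m - 1) = 1 + m - 1 := by omega
      refine le_min (hilb_le _ _) ?_
      rw [← h2]
      have hrR : (1 : ℝ) ≤ r := by exact_mod_cast hr
      have hC := choose_pos' 1 (m - 1)
      have h3 := hilb_le (fatIdeal P m) (m - 1)
      nlinarith
  · have hm2 : 2 ≤ m := by omega
    have hr2 : 2 ≤ r := by omega
    obtain ⟨s, rfl⟩ : ∃ s, r = s + 1 := ⟨r - 1, by omega⟩
    obtain ⟨n, hn⟩ : ∃ n, n = s * m := ⟨_, rfl⟩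
    have hnm : n + m = (s + 1) * m := by rw [hn]; ring
    have hrn : s + 1 ≤ n := by
      rw [hn]
      nlinarith
    have hCR := choose_pos' n m
    have hB : ((s + 1 : ℕ) : ℝ) * ((n + m - 1).choose n : ℝ) = ((n + m).choose n : ℝ) := by
      have h1 := Nat.choose_mul_succ_eq (n + m - 1) n
      have e1 : n + m - 1 + 1 = n + m := by omega
      rw [e1] at h1
      have e2 : n + m - n = m := by omega
      rw [e2] at h1
      have h2 : ((s + 1) * (n + m - 1).choose n) * m = (n + m).choose n * m := by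
        calc (s + 1) * (n + m - 1).choose n * m = (n + m - 1).choose n * ((s + 1) * m) := by ring
          _ = (n + m - 1).choose n * (n + m) := by rw [← hnm]
          _ = _ := h1
      have h3 := Nat.eq_of_mul_eq_mul_right (by omega) h2
      exact_mod_cast h3
    refine ⟨n, m, by omega, ?_, fun P hP => ?_⟩
    · rw [hB, min_self]
      exact hCR
    rw [hB, min_self]
    have h5 := lin_upper n m (s + 1) hm hrn P hP
    have h6 : ((n + m).choose n : ℝ) = (((s + 1) * m).choose m : ℝ) := by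
      rw [Nat.choose_symm_add, hnm]
    have h7 : ((n + m - (s + 1)).choose m : ℝ) = (((s + 1) * m - (s + 1)).choose m : ℝ) := by
      rw [hnm]
    rw [h6, h7] at h5
    rw [h6]
    have h8 : (0 : ℝ) < (((s + 1) * m).choose m : ℝ) := by rw [← h6]; exact hCR
    unfold kap
    rw [sub_mul, one_mul, div_mul_cancel₀ _ h8.ne']
    exact h5

/-- The infimum of the best constants is `1 - 1/e`. -/
theorem kap_inf {ε : ℝ} (hε : 0 < ε) : ∃ m r : ℕ, 1 ≤ m ∧ 1 ≤ r ∧
    kap m r ≤ 1 - Real.exp (-1) + ε := by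
  obtain ⟨n, m, r, d, hn, hm, hr, hb, h⟩ := opt hε
  refine ⟨m, r, hm, hr, ?_⟩
  obtain ⟨P, hP0, -, hP⟩ := (sharp n m r hn hm hr).exists
  have h1 := (hP d).trans (h P hP0)
  exact le_of_mul_le_mul_right h1 hb

end Pool.Agent.Helper65.HFL
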